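import Pool.Agent.H42.Log.Main

/-!
**P1**: blow-up of the lossless cascade for all log-supercritical dissipations.
-/

open Set Filter Topology

namespace Pool.Agent.H42.Log

open Pool.Agent.H42.Mix (RD mono_of_rd exists_antideriv)
open Pool.Agent.H39.Log (IsSolS alS beS gainS S_P1)
open Pool.Agent.H39.Dy (Rapid)

/-- the scaling exponent -/
noncomputable abbrev BB : ℝ := (2 : ℝ) ^ (5 / 2 : ℝ)

lemma BB_pos : 0 < BB := Real.rpow_pos_of_pos two_pos _

lemma BB_sq : BB ^ 2 = 32 := by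
  rw [BB, ← Real.rpow_natCast, ← Real.rpow_mul (by norm_num)]
  norm_num

lemma BB_even (k : ℕ) : BB ^ (2 * k) = 32 ^ k := by rw [pow_mul, BB_sq]

lemma BB_odd (k : ℕ) : BB ^ (2 * k + 1) = 32 ^ k * BB := by rw [pow_succ, BB_even]

lemma BB_le : BB ≤ 32 := by
  have h1 := BB_pos
  have h2 := BB_sq
  nlinarith

lemma BB_ge : 1 ≤ BB := by
  have h1 := BB_pos
  have h2 := BB_sq
  nlinarith

lemma alS_even (al : ℕ → ℝ) (k : ℕ) : alS al (2 * k) = al k := by
  simp [alS]

lemma alS_odd (al : ℕ → ℝ) (k : ℕ) : alS al (2 * k + 1) = BB⁻¹ := by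
  have : ¬ Even (2 * k + 1) := by simp
  simp [alS, this]

lemma beS_even (k : ℕ) : beS (2 * k) = 1 := by simp [beS]

lemma beS_odd (k : ℕ) : beS (2 * k + 1) = 0 := by
  have : ¬ Even (2 * k + 1) := by simp
  simp [beS, this]

/-- the normalised chain of a solution -/
lemma base_of_X {A T : ℝ} (hA : 0 < A) {d : ℕ → ℝ} {X : ℕ → ℝ → ℝ} (hd : ∀ n, 0 ≤ d n)
    (hX : IsSolS (alS alN) beS BB d T X) (hr : Rapid T X) (h0 : X 0 0 = A)
    (hn : ∀ n, 1 ≤ n → X n 0 = 0) :
    Bc (fun k => d (2 * k) / A) (fun k => d (2 * k + 1) / A) (A * T)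
      (fun k s => X (2 * k) (s / A) / A) (fun k s => X (2 * k + 1) (s / A) / A) := by
  have hm : ∀ s ∈ Ico 0 (A * T), s / A ∈ Ico 0 T := by
    intro s hs
    refine ⟨div_nonneg hs.1 hA.le, ?_⟩
    rw [div_lt_iff₀ hA]; linarith [hs.2]
  have hm' : ∀ s ∈ Icc 0 (A * T), s / A ∈ Icc 0 T := by
    intro s hs
    refine ⟨div_nonneg hs.1 hA.le, ?_⟩
    rw [div_le_iff₀ hA]; linarith [hs.2]
  have hcont : ∀ m, ContinuousOn (fun s => X m (s / A) / A) (Icc 0 (A * T)) := by
    intro m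
    have h1 : ContinuousOn (X m) (Icc 0 T) := fun t ht => (hX m t ht).continuousWithinAt
    exact (h1.comp (by fun_prop) hm').div_const A
  have hrd : ∀ m, ∀ s ∈ Ico 0 (A * T), RD (fun s => X m (s / A) / A)
      ((gainS (alS alN) beS BB (fun k => X k (s / A)) m - d m * X m (s / A)
        - BB ^ m * X (m + 1) (s / A) * (alS alN m * X m (s / A) + beS m * X (m + 1) (s / A)))
        / A / A) s := by
    intro m s hs
    have h1 := hX m (s / A) (hm' s ⟨hs.1, hs.2.le⟩)
    have h2 : RD (X m) (gainS (alS alN) beS BB (fun k => X k (s / A)) m - d m * X m (s / A)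
        - BB ^ m * X (m + 1) (s / A) * (alS alN m * X m (s / A) + beS m * X (m + 1) (s / A)))
        (0 + s / A) := by
      rw [zero_add]
      exact h1.mono_of_mem_nhdsWithin (Icc_mem_nhdsGE_of_mem (hm s hs))
    have h3 := rd_comp hA h2
    simp only [zero_add] at h3
    exact h3.div_const A
  have hA' : A ≠ 0 := hA.ne'
  have hB' : BB ≠ 0 := BB_pos.ne'
  refine ⟨⟨fun k => by positivity, fun k => (al_pos k).le, fun k => div_nonneg (hd _) hA.le,
    fun k => div_nonneg (hd _) hA.le, fun k => hcont _, fun k => hcont _, ?_, ?_, ?_⟩,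
    ?_, ?_, ?_, ?_⟩
  · intro k s hs
    refine (hrd (2 * k) s hs).congr_deriv ?_
    rw [BB_even, alS_even, beS_even]
    cases k with
    | zero =>
      simp only [gainS, inb, mul_zero, zero_add, pow_zero]
      field_simp
      ring
    | succ m =>
      have e1 : 2 * (m + 1) = (2 * m + 1) + 1 := by ring
      simp only [inb]
      rw [e1]
      simp only [gainS]
      rw [BB_odd, alS_odd, beS_odd]
      field_simp
      ring
  · intro k s hs
    refine (hrd (2 * k + 1) s hs).congr_deriv ?_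
    simp only [gainS]
    rw [BB_odd, BB_even, alS_odd, beS_odd, alS_even, beS_even]
    have e1 : 2 * (k + 1) = 2 * k + 1 + 1 := by ring
    rw [e1]
    field_simp
    ring
  · intro η hη
    obtain ⟨C, hC⟩ := hr 8 (by norm_num)
    have hlim : Tendsto (fun N : ℕ => (C / A) ^ 2 * |C / A| * (1 / 2 : ℝ) ^ N) atTop (𝓝 0) := by
      have := (tendsto_pow_atTop_nhds_zero_of_lt_one (r := (1 / 2 : ℝ)) (by norm_num)
        (by norm_num)).const_mul ((C / A) ^ 2 * |C / A|)
      simpa using this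
    obtain ⟨N₀, hN₀⟩ := (hlim.eventually (Iio_mem_nhds hη)).exists_forall_of_atTop
    refine ⟨N₀, fun N hN s hs => ?_⟩
    have h1 := hC (2 * N + 1) (s / A) (hm' s hs)
    have h2 := hC (2 * (N + 1)) (s / A) (hm' s hs)
    have h3 := hN₀ N hN
    have hC0 : 0 ≤ C := le_trans (by positivity) h1
    have e1 : |X (2 * N + 1) (s / A)| ≤ C / 8 ^ (2 * N + 1) := by
      rw [le_div_iff₀ (by positivity)]; linarith
    have e2 : |X (2 * (N + 1)) (s / A)| ≤ C := by
      have : (1 : ℝ) ≤ 8 ^ (2 * (N + 1)) := one_le_pow₀ (by norm_num)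
      nlinarith [abs_nonneg (X (2 * (N + 1)) (s / A))]
    have e3 : |X (2 * N + 1) (s / A) / A| ≤ C / A / 8 ^ (2 * N + 1) := by
      rw [abs_div, abs_of_pos hA, div_div, mul_comm A, ← div_div]
      gcongr
    have e4 : |X (2 * (N + 1)) (s / A) / A| ≤ C / A := by
      rw [abs_div, abs_of_pos hA]
      gcongr
    rw [abs_mul, abs_mul, abs_of_pos (by positivity : (0 : ℝ) < 32 ^ N), abs_pow]
    calc 32 ^ N * |X (2 * N + 1) (s / A) / A| ^ 2 * |X (2 * (N + 1)) (s / A) / A|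
        ≤ 32 ^ N * (C / A / 8 ^ (2 * N + 1)) ^ 2 * (C / A) := by gcongr
      _ ≤ (C / A) ^ 2 * |C / A| * (1 / 2) ^ N := by
        rw [abs_of_nonneg (by positivity : 0 ≤ C / A), div_pow _ ((8 : ℝ) ^ (2 * N + 1)),
          ← pow_mul]
        have e5 : (8 : ℝ) ^ ((2 * N + 1) * 2) = 4096 ^ N * 64 := by
          rw [show (2 * N + 1) * 2 = 4 * N + 2 by ring, pow_add, pow_mul]
          norm_num
        have e6 : (32 : ℝ) ^ N ≤ (1 / 2) ^ N * (4096 ^ N * 64) := by
          rw [← mul_assoc, ← mul_pow]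
          norm_num
          have : (32 : ℝ) ^ N ≤ 2048 ^ N := pow_le_pow_left₀ (by norm_num) (by norm_num) N
          have h5 : (0 : ℝ) < 2048 ^ N := by positivity
          linarith
        rw [e5]
        have e7 : 0 ≤ (C / A) ^ 2 := by positivity
        have e8 : 0 ≤ C / A := by positivity
        have e9 : 32 ^ N * ((C / A) ^ 2 / (4096 ^ N * 64)) ≤ (C / A) ^ 2 * (1 / 2) ^ N := by
          rw [← mul_div_assoc, div_le_iff₀ (by positivity)]
          nlinarith [mul_le_mul_of_nonneg_left e6 e7]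
        nlinarith [mul_le_mul_of_nonneg_right e9 e8]
      _ ≤ η := h3.le
  · intro N
    have h1 : ∀ j ∈ Finset.Ico 0 N, (X (2 * j) (0 / A) / A) ^ 2 + (X (2 * j + 1) (0 / A) / A) ^ 2 =
        if j = 0 then 1 else 0 := by
      intro j _
      rw [zero_div]
      by_cases hj : j = 0
      · subst hj
        rw [mul_zero, zero_add, h0, hn 1 le_rfl]
        simp [hA']
      · rw [hn (2 * j) (by omega), hn (2 * j + 1) (by omega)]
        simp [hj]
    simp only [E]
    rw [Finset.sum_congr rfl h1, Finset.sum_ite_eq']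
    split_ifs <;> norm_num
  · intro k
    simp only [zero_div]
    rw [hn (2 * k + 1) (by omega)]
    simp
  · simp [h0, hA']
  · intro k
    simp only [zero_div]
    rw [hn (2 * (k + 1)) (by omega)]
    simp

/-- the summability behind the threshold -/
lemma sum_bound {γ : ℝ} (hγ : 1 < γ) :
    ∃ C : ℝ, 0 ≤ C ∧ ∀ n : ℕ, ∑ j ∈ Finset.range n, LN j / ((j : ℝ) + 1) ^ γ ≤ C := by
  set δ := (γ - 1) / 2 with hδ
  have hδ0 : 0 < δ := by rw [hδ]; linarith
  set C1 := 1202 / δ + 1202 * Real.log (10 ^ 8) + 10 with hC1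
  have hlog : 0 ≤ Real.log (10 ^ 8 : ℝ) := Real.log_nonneg (by norm_num)
  have hC10 : 0 ≤ C1 := by rw [hC1]; positivity
  have hL : ∀ j : ℕ, LN j ≤ C1 * ((j : ℝ) + 1) ^ δ := by
    intro j
    have hj : (0 : ℝ) ≤ j := Nat.cast_nonneg j
    have h1 : ll j ≤ Real.log ((j : ℝ) + 1) + Real.log (10 ^ 8) := by
      rw [← Real.log_mul (by positivity) (by positivity)]
      apply Real.log_le_log (NN_pos j)
      simp only [NN]
      nlinarith
    have h2 := Real.log_le_rpow_div (x := (j : ℝ) + 1) (by positivity) hδ0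
    have h3 : 1 ≤ ((j : ℝ) + 1) ^ δ := Real.one_le_rpow (by linarith) hδ0.le
    have h4 : LN j ≤ 1202 * (((j : ℝ) + 1) ^ δ / δ) + (1202 * Real.log (10 ^ 8) + 10) * 1 := by
      simp only [LN]
      linarith
    have h5 : (1202 * Real.log (10 ^ 8) + 10) * 1 ≤
        (1202 * Real.log (10 ^ 8) + 10) * ((j : ℝ) + 1) ^ δ :=
      mul_le_mul_of_nonneg_left h3 (by positivity)
    have h6 : 1202 * (((j : ℝ) + 1) ^ δ / δ) = 1202 / δ * ((j : ℝ) + 1) ^ δ := by ring
    have h7 : C1 * ((j : ℝ) + 1) ^ δ = 1202 / δ * ((j : ℝ) + 1) ^ δ +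
        (1202 * Real.log (10 ^ 8) + 10) * ((j : ℝ) + 1) ^ δ := by rw [hC1]; ring
    linarith
  have hterm : ∀ j : ℕ, LN j / ((j : ℝ) + 1) ^ γ ≤ C1 * (1 / ((j : ℝ) + 1) ^ ((γ + 1) / 2)) := by
    intro j
    have hj : (0 : ℝ) < (j : ℝ) + 1 := by positivity
    have h1 : ((j : ℝ) + 1) ^ δ / ((j : ℝ) + 1) ^ γ = 1 / ((j : ℝ) + 1) ^ ((γ + 1) / 2) := by
      rw [← Real.rpow_sub hj, one_div, ← Real.rpow_neg hj.le]
      congr 1
      rw [hδ]; ring
    rw [← h1, ← mul_div_assoc]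
    gcongr
    exact hL j
  have hs : Summable fun j : ℕ => C1 * (1 / ((j : ℝ) + 1) ^ ((γ + 1) / 2)) := by
    apply Summable.mul_left
    have h1 := (summable_nat_add_iff (f := fun n : ℕ => 1 / (n : ℝ) ^ ((γ + 1) / 2)) 1).2
      (Real.summable_one_div_nat_rpow.2 (by linarith))
    simpa using h1
  refine ⟨∑' j : ℕ, C1 * (1 / ((j : ℝ) + 1) ^ ((γ + 1) / 2)), tsum_nonneg fun j => by positivity,
    fun n => ?_⟩
  calc ∑ j ∈ Finset.range n, LN j / ((j : ℝ) + 1) ^ γ
      ≤ ∑ j ∈ Finset.range n, C1 * (1 / ((j : ℝ) + 1) ^ ((γ + 1) / 2)) :=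
        Finset.sum_le_sum fun j _ => hterm j
    _ ≤ _ := hs.sum_le_tsum _ fun j _ => by positivity

theorem p1 : S_P1 := by
  refine ⟨alN, fun n => ⟨al_pos n, ?_⟩, ?_⟩
  · simp only [alN]
    rw [div_le_one (pow_pos (NN_pos n) _)]
    exact one_le_pow₀ (by linarith [NN_ge n])
  intro γ hγ M T hT
  obtain ⟨C, hC0, hC⟩ := sum_bound hγ
  refine ⟨max 1 (max (32 * |M| * C * 10 ^ 5) (2 * 10 ^ 8 / T)), ?_⟩
  intro A hA d hd
  rintro ⟨X, hX, hr, hX0, hXn⟩
  have hA1 : 1 ≤ A := (le_max_left _ _).trans hA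
  have hA0 : 0 < A := by linarith
  have hA2 : 32 * |M| * C * 10 ^ 5 ≤ A := (le_max_left _ _).trans ((le_max_right _ _).trans hA)
  have hA3 : 2 * 10 ^ 8 / T ≤ A := (le_max_right _ _).trans ((le_max_right _ _).trans hA)
  have hbase := base_of_X hA0 (fun n => (hd n).1) hX hr hX0 hXn
  set D : ℕ → ℝ := fun n => 32 * |M| / (A * ((n : ℝ) + 1) ^ γ) with hD
  have hdb : ∀ i n : ℕ, n ≤ i → BB ^ i ≤ 32 * 32 ^ n → d i / A ≤ D n * 32 ^ n := by
    intro i n hin hBi
    have hn0 : (0 : ℝ) < ((n : ℝ) + 1) ^ γ := by positivity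
    have hi0 : (0 : ℝ) < ((i : ℝ) + 1) ^ γ := by positivity
    have h1 := (hd i).2
    have h2 : M * BB ^ i / ((i : ℝ) + 1) ^ γ ≤ |M| * (32 * 32 ^ n) / ((n : ℝ) + 1) ^ γ := by
      have h3 : ((n : ℝ) + 1) ^ γ ≤ ((i : ℝ) + 1) ^ γ := by
        apply Real.rpow_le_rpow (by positivity) _ (by linarith)
        have : (n : ℝ) ≤ i := by exact_mod_cast hin
        linarith
      have h4 : M * BB ^ i ≤ |M| * (32 * 32 ^ n) := by
        have h5 : M * BB ^ i ≤ |M| * BB ^ i :=
          mul_le_mul_of_nonneg_right (le_abs_self M) (pow_pos BB_pos i).le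
        have h6 : |M| * BB ^ i ≤ |M| * (32 * 32 ^ n) :=
          mul_le_mul_of_nonneg_left hBi (abs_nonneg M)
        linarith
      calc M * BB ^ i / ((i : ℝ) + 1) ^ γ ≤ |M| * (32 * 32 ^ n) / ((i : ℝ) + 1) ^ γ := by
            gcongr
        _ ≤ |M| * (32 * 32 ^ n) / ((n : ℝ) + 1) ^ γ := by
            gcongr
    have h3 : D n * 32 ^ n = |M| * (32 * 32 ^ n) / ((n : ℝ) + 1) ^ γ / A := by
      rw [hD]
      field_simp
    rw [h3]
    gcongr
    exact h1.trans h2
  have hDs : Ds D (fun k => d (2 * k) / A) (fun k => d (2 * k + 1) / A) := by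
    refine ⟨fun n => by rw [hD]; positivity, ?_, ?_, ?_, ?_⟩
    · intro n
      cases n with
      | zero =>
        simp only [pn]
        rw [hD]
        positivity
      | succ m =>
        simp only [pn]
        apply hdb (2 * m + 1) (m + 1) (by omega)
        rw [BB_odd, pow_succ]
        have h1 := BB_le
        have h2 : (0 : ℝ) < 32 ^ m := by positivity
        nlinarith
    · intro n
      apply hdb (2 * n) n (by omega)
      rw [BB_even]
      have h2 : (0 : ℝ) < 32 ^ n := by positivity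
      linarith
    · intro n
      apply hdb (2 * n + 1) n (by omega)
      rw [BB_odd]
      have h1 := BB_le
      have h2 : (0 : ℝ) < 32 ^ n := by positivity
      nlinarith
    · intro n
      apply hdb (2 * (n + 1)) n (by omega)
      rw [BB_even, pow_succ]
      linarith
  have hsum : ∀ n, ∑ j ∈ Finset.range n, D j * LN j ≤ 1 / 10 ^ 5 := by
    intro n
    have h1 : ∑ j ∈ Finset.range n, D j * LN j =
        32 * |M| / A * ∑ j ∈ Finset.range n, LN j / ((j : ℝ) + 1) ^ γ := by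
      rw [Finset.mul_sum]
      apply Finset.sum_congr rfl
      intro j _
      rw [hD]
      have : (0 : ℝ) < ((j : ℝ) + 1) ^ γ := by positivity
      field_simp
    rw [h1]
    have h2 : 32 * |M| / A * ∑ j ∈ Finset.range n, LN j / ((j : ℝ) + 1) ^ γ ≤ 32 * |M| / A * C :=
      mul_le_mul_of_nonneg_left (hC n) (by positivity)
    refine h2.trans ?_
    rw [div_mul_eq_mul_div, div_le_div_iff₀ hA0 (by positivity)]
    linarith
  have hS : 2 * 10 ^ 8 ≤ A * T := by
    rw [div_le_iff₀ hT] at hA3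
    exact hA3
  obtain ⟨C', hC'⟩ := hr 2 two_pos
  obtain ⟨n, hn⟩ := pow_unbounded_of_one_lt (2 * C' / A) (by norm_num : (1 : ℝ) < 4)
  obtain ⟨s, hs, hR⟩ := hbase.iterate hDs hsum hS n
  have h1 := hR.h1
  have h2 := bet_ge (hsum n)
  have h3 : s / A ∈ Icc 0 T := by
    refine ⟨div_nonneg hs.1 hA0.le, ?_⟩
    rw [div_le_iff₀ hA0]
    have h4 : (0 : ℝ) < 1 / 16 ^ n := by positivity
    have h5 := hs.2
    nlinarith
  have h4 := hC' (2 * n) (s / A) h3
  have h5 : 95 / 100 * A ≤ X (2 * n) (s / A) := by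
    have h6 : 95 / 100 ≤ X (2 * n) (s / A) / A := h2.trans h1
    rwa [le_div_iff₀ hA0] at h6
  have h6 : (2 : ℝ) ^ (2 * n) = 4 ^ n := by rw [pow_mul]; norm_num
  rw [h6] at h4
  rw [div_lt_iff₀ hA0] at hn
  have h7 : 4 ^ n * (95 / 100 * A) ≤ 4 ^ n * |X (2 * n) (s / A)| :=
    mul_le_mul_of_nonneg_left (h5.trans (le_abs_self _)) (by positivity)
  have h8 : 0 < 4 ^ n * A := by positivity
  nlinarith

end Pool.Agent.H42.Log
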