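import Pool.Agent.H42.Mix.Basic

/-!
Comparison lemmas for right derivatives, used for the lossless cascade.
-/

open Set Filter Topology

namespace Pool.Agent.H42.Log

open Pool.Agent.H42.Mix (RD mono_of_rd)

/-- the first time a level is reached -/
lemma first_exit {f : ℝ → ℝ} {a b c : ℝ} (hf : ContinuousOn f (Icc a b)) (ha : f a < c)
    (hb : ∃ t ∈ Icc a b, c ≤ f t) :
    ∃ t ∈ Ioc a b, f t = c ∧ ∀ s ∈ Ico a t, f s < c := by
  let E : Set ℝ := {t ∈ Icc a b | c ≤ f t}
  have hEc : IsClosed E := hf.preimage_isClosed_of_isClosed isClosed_Icc isClosed_Ici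
  have hEne : E.Nonempty := by
    obtain ⟨t, ht, ht2⟩ := hb
    exact ⟨t, ht, ht2⟩
  have hEb : BddBelow E := ⟨a, fun t ht => ht.1.1⟩
  have hm : sInf E ∈ E := hEc.csInf_mem hEne hEb
  set t := sInf E with ht
  have hlt : ∀ s ∈ Ico a t, f s < c := by
    intro s hs
    by_contra hc
    push Not at hc
    have : t ≤ s := csInf_le hEb ⟨⟨hs.1, hs.2.le.trans hm.1.2⟩, hc⟩
    linarith [hs.2]
  have hat : a < t := by
    rcases eq_or_lt_of_le hm.1.1 with h | h
    · exfalso
      have := hm.2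
      rw [← h] at this
      linarith
    · exact h
  refine ⟨t, ⟨hat, hm.1.2⟩, le_antisymm ?_ hm.2, hlt⟩
  have hne : (𝓝[Ico a t] t).NeBot := by
    apply mem_closure_iff_nhdsWithin_neBot.1
    rw [closure_Ico hat.ne]
    exact ⟨hat.le, le_rfl⟩
  have h1 : ContinuousWithinAt f (Ico a t) t :=
    (hf t hm.1).mono (fun s hs => ⟨hs.1, hs.2.le.trans hm.1.2⟩)
  exact le_of_tendsto h1 (eventually_nhdsWithin_of_forall fun s hs => (hlt s hs).le)

/-- a barrier -/
lemma barrier {f f' : ℝ → ℝ} {a b : ℝ} (hf : ContinuousOn f (Icc a b))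
    (hd : ∀ s ∈ Ico a b, RD f (f' s) s) (h0 : 0 ≤ f a)
    (h : ∀ s ∈ Ico a b, f s = 0 → 0 < f' s) : ∀ s ∈ Icc a b, 0 ≤ f s := by
  intro s hs
  have h1 := image_le_of_deriv_right_lt_deriv_boundary' (f := fun x => -f x)
    (f' := fun x => -f' x) (a := a) (b := b) hf.neg
    (fun r hr => (hd r hr).fun_neg) (B := fun _ => 0) (B' := fun _ => 0)
    (by simpa using h0) continuousOn_const (fun r _ => hasDerivWithinAt_const _ _ _)
    (fun r hr hr0 => by
      have := h r hr (by simpa using hr0)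
      linarith) hs
  simpa using h1

/-- Gronwall, upper bound -/
lemma gron_le {u u' g g' : ℝ → ℝ} {a b : ℝ} (hu : ContinuousOn u (Icc a b))
    (hg : ContinuousOn g (Icc a b)) (du : ∀ s ∈ Ico a b, RD u (u' s) s)
    (dg : ∀ s ∈ Ico a b, RD g (g' s) s) (h : ∀ s ∈ Ico a b, u' s ≤ g' s * u s) :
    ∀ s ∈ Icc a b, u s ≤ u a * Real.exp (g s - g a) := by
  intro s hs
  have h1 := mono_of_rd (f := fun s => -(u s * Real.exp (-(g s))))
    (f' := fun s => -(u' s * Real.exp (-(g s)) + u s * (Real.exp (-(g s)) * -(g' s))))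
    (a := a) (b := b) ((hu.mul hg.neg.rexp).neg)
    (fun r hr => ((du r hr).fun_mul ((dg r hr).fun_neg.exp)).fun_neg)
    (fun r hr => by
      have h1 := h r hr
      have h2 := Real.exp_pos (-(g r))
      have : 0 ≤ (g' r * u r - u' r) * Real.exp (-(g r)) := mul_nonneg (by linarith) h2.le
      linarith) s hs
  have h2 := Real.exp_pos (g s)
  have h3 : Real.exp (-(g s)) * Real.exp (g s) = 1 := by rw [← Real.exp_add]; simp
  have h4 : Real.exp (g s - g a) = Real.exp (-(g a)) * Real.exp (g s) := by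
    rw [← Real.exp_add]; ring_nf
  rw [h4]
  have h5 : u s * Real.exp (-(g s)) ≤ u a * Real.exp (-(g a)) := by linarith
  have h6 := mul_le_mul_of_nonneg_right h5 h2.le
  calc u s = u s * (Real.exp (-(g s)) * Real.exp (g s)) := by rw [h3, mul_one]
    _ = u s * Real.exp (-(g s)) * Real.exp (g s) := by ring
    _ ≤ u a * Real.exp (-(g a)) * Real.exp (g s) := h6
    _ = u a * (Real.exp (-(g a)) * Real.exp (g s)) := by ring

/-- Gronwall, lower bound -/
lemma gron_ge {u u' g g' : ℝ → ℝ} {a b : ℝ} (hu : ContinuousOn u (Icc a b))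
    (hg : ContinuousOn g (Icc a b)) (du : ∀ s ∈ Ico a b, RD u (u' s) s)
    (dg : ∀ s ∈ Ico a b, RD g (g' s) s) (h : ∀ s ∈ Ico a b, g' s * u s ≤ u' s) :
    ∀ s ∈ Icc a b, u a * Real.exp (g s - g a) ≤ u s := by
  intro s hs
  have := gron_le (u := fun s => -u s) (u' := fun s => -u' s) hu.neg hg
    (fun r hr => (du r hr).fun_neg) dg (fun r hr => by have := h r hr; linarith) s hs
  simp only [neg_mul] at this
  linarith

lemma rd_lin (c a s : ℝ) : RD (fun s => c * (s - a)) c s := by
  have := (((hasDerivAt_id' s).hasDerivWithinAt (s := Ici s)).sub_const a).const_mul c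
  simpa using this

lemma rd_lin0 (c s : ℝ) : RD (fun s => c * s) c s := by
  have := ((hasDerivAt_id' s).hasDerivWithinAt (s := Ici s)).const_mul c
  simpa using this

/-- Gronwall with a constant rate, upper bound -/
lemma gron_le_const {u u' : ℝ → ℝ} {a b k : ℝ} (hu : ContinuousOn u (Icc a b))
    (du : ∀ s ∈ Ico a b, RD u (u' s) s) (h : ∀ s ∈ Ico a b, u' s ≤ k * u s) :
    ∀ s ∈ Icc a b, u s ≤ u a * Real.exp (k * (s - a)) := by
  intro s hs
  have := gron_le (g := fun s => k * (s - a)) (g' := fun _ => k) hu (by fun_prop) du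
    (fun r _ => rd_lin k a r) h s hs
  simpa using this

/-- Gronwall with a constant rate, lower bound -/
lemma gron_ge_const {u u' : ℝ → ℝ} {a b k : ℝ} (hu : ContinuousOn u (Icc a b))
    (du : ∀ s ∈ Ico a b, RD u (u' s) s) (h : ∀ s ∈ Ico a b, k * u s ≤ u' s) :
    ∀ s ∈ Icc a b, u a * Real.exp (k * (s - a)) ≤ u s := by
  intro s hs
  have := gron_ge (g := fun s => k * (s - a)) (g' := fun _ => k) hu (by fun_prop) du
    (fun r _ => rd_lin k a r) h s hs
  simpa using this

/-- a lower bound for the derivative -/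
lemma low_of_rd {f f' : ℝ → ℝ} {a b c : ℝ} (hf : ContinuousOn f (Icc a b))
    (hf' : ∀ x ∈ Ico a b, RD f (f' x) x) (h : ∀ x ∈ Ico a b, -c ≤ f' x) :
    ∀ x ∈ Icc a b, f a - c * (x - a) ≤ f x := by
  intro x hx
  have := mono_of_rd (f := fun x => f x + c * (x - a)) (f' := fun x => f' x + c)
    (hf.add (by fun_prop)) (fun y hy => (hf' y hy).fun_add (rd_lin c a y))
    (fun y hy => by have := h y hy; linarith) x hx
  simp only [sub_self, mul_zero, add_zero] at this
  linarith

/-- an upper bound for the derivative -/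
lemma up_of_rd {f f' : ℝ → ℝ} {a b c : ℝ} (hf : ContinuousOn f (Icc a b))
    (hf' : ∀ x ∈ Ico a b, RD f (f' x) x) (h : ∀ x ∈ Ico a b, f' x ≤ c) :
    ∀ x ∈ Icc a b, f x ≤ f a + c * (x - a) := by
  intro x hx
  have := low_of_rd (f := fun x => -f x) (f' := fun x => -f' x) (c := c) hf.neg
    (fun r hr => (hf' r hr).fun_neg) (fun r hr => by have := h r hr; linarith) x hx
  linarith

end Pool.Agent.H42.Log
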