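import Pool.Agent.H42.Log.Base

/-!
The alternating chain: tail energies, positivity, rescaling.
-/

open Set Filter Topology

namespace Pool.Agent.H42.Log

open Pool.Agent.H42.Mix (RD mono_of_rd exists_antideriv)

/-- the inflow into `b k` -/
def inb (c : ℕ → ℝ) (a : ℕ → ℝ → ℝ) : ℕ → ℝ → ℝ
  | 0, _ => 0
  | k + 1, s => c k * a k s ^ 2

/-- the alternating chain: links `b k → a k` of Obukhov type with a seed, links `a k → b (k + 1)` of
Katz-Pavlovic type -/
structure Sys (c al e f : ℕ → ℝ) (S : ℝ) (b a : ℕ → ℝ → ℝ) : Prop where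
  c0 : ∀ k, 0 ≤ c k
  al0 : ∀ k, 0 ≤ al k
  e0 : ∀ k, 0 ≤ e k
  f0 : ∀ k, 0 ≤ f k
  cb : ∀ k, ContinuousOn (b k) (Icc 0 S)
  ca : ∀ k, ContinuousOn (a k) (Icc 0 S)
  db : ∀ k, ∀ s ∈ Ico 0 S, RD (b k) (inb c a k s - c k * a k s * (al k * b k s + a k s)
    - e k * b k s) s
  da : ∀ k, ∀ s ∈ Ico 0 S, RD (a k) (c k * b k s * (al k * b k s + a k s)
    - c k * a k s * b (k + 1) s - f k * a k s) s
  fl : ∀ η : ℝ, 0 < η → ∃ N₀ : ℕ, ∀ N, N₀ ≤ N → ∀ s ∈ Icc 0 S,
    |c N * a N s ^ 2 * b (N + 1) s| ≤ η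

variable {c al e f : ℕ → ℝ} {S : ℝ} {b a : ℕ → ℝ → ℝ}

/-- the energy of a window of pairs -/
def E (b a : ℕ → ℝ → ℝ) (k N : ℕ) (s : ℝ) : ℝ := ∑ j ∈ Finset.Ico k N, (b j s ^ 2 + a j s ^ 2)

lemma inb_nonneg (hc : ∀ k, 0 ≤ c k) (k : ℕ) (s : ℝ) : 0 ≤ inb c a k s := by
  cases k with
  | zero => exact le_rfl
  | succ k => exact mul_nonneg (hc k) (sq_nonneg _)

lemma Sys.dE (h : Sys c al e f S b a) {k N : ℕ} (hN : k ≤ N) : ∀ s ∈ Ico 0 S,
    RD (E b a k N) (2 * (inb c a k s * b k s - inb c a N s * b N s)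
      - 2 * ∑ j ∈ Finset.Ico k N, (e j * b j s ^ 2 + f j * a j s ^ 2)) s := by
  induction N, hN using Nat.le_induction with
  | base =>
    intro s hs
    have : E b a k k = fun _ => 0 := by
      funext s; simp [E]
    rw [this]
    simp only [sub_self, mul_zero, Finset.Ico_self, Finset.sum_empty]
    exact hasDerivWithinAt_const _ _ _
  | succ N hN ih =>
    intro s hs
    have h1 := (ih s hs).fun_add (((h.db N s hs).fun_pow 2).fun_add ((h.da N s hs).fun_pow 2))
    have h2 : E b a k (N + 1) = fun s => E b a k N s + (b N s ^ 2 + a N s ^ 2) := by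
      funext s
      simp only [E]
      rw [Finset.sum_Ico_succ_top hN]
    rw [h2]
    refine h1.congr_deriv ?_
    rw [Finset.sum_Ico_succ_top hN]
    simp only [inb]
    push_cast
    ring

lemma Sys.cE (h : Sys c al e f S b a) (k N : ℕ) : ContinuousOn (E b a k N) (Icc 0 S) := by
  apply continuousOn_finsetSum
  intro j _
  exact ((h.cb j).pow 2).add ((h.ca j).pow 2)

lemma E_mono {k N M : ℕ} (hNM : N ≤ M) (s : ℝ) : E b a k N s ≤ E b a k M s := by
  apply Finset.sum_le_sum_of_subset_of_nonneg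
  · intro j hj
    simp only [Finset.mem_Ico] at hj ⊢
    omega
  · intro j _ _
    positivity

lemma sq_le_E {k N j : ℕ} (h1 : k ≤ j) (h2 : j < N) (s : ℝ) : b j s ^ 2 + a j s ^ 2 ≤ E b a k N s := by
  have := Finset.single_le_sum (f := fun j => b j s ^ 2 + a j s ^ 2) (s := Finset.Ico k N)
    (fun i _ => by positivity) (Finset.mem_Ico.2 ⟨h1, h2⟩)
  exact this

/-- **Tail energies.** -/
theorem Sys.tail (h : Sys c al e f S b a) {k : ℕ} {s0 S' F : ℝ} (h0 : 0 ≤ s0) (hS : S' ≤ S)
    (hF : 0 ≤ F) {G G' : ℝ → ℝ} (cG : ContinuousOn G (Icc s0 S'))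
    (dG : ∀ s ∈ Ico s0 S', RD G (G' s) s) (hG : ∀ s ∈ Ico s0 S', inb c a k s ≤ G' s)
    (hE0 : ∀ N, E b a k N s0 ≤ F ^ 2) :
    ∀ N, ∀ s ∈ Icc s0 S', E b a k N s ≤ (F + (G s - G s0)) ^ 2 := by
  intro N s hs
  have hI : ∀ x ∈ Ico s0 S', x ∈ Ico 0 S := fun x hx => ⟨h0.trans hx.1, hx.2.trans_le hS⟩
  have hJ : ∀ x ∈ Ico s0 S', x ∈ Icc 0 S := fun x hx => ⟨h0.trans hx.1, hx.2.le.trans hS⟩
  have hsub : Icc s0 S' ⊆ Icc 0 S := Icc_subset_Icc h0 hS
  have key : ∀ η : ℝ, 0 < η → E b a k N s ≤ (F + η + (G s - G s0) + η * (s - s0)) ^ 2 := by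
    intro η hη
    obtain ⟨N₀, hN₀⟩ := h.fl (η ^ 2 / 2) (by positivity)
    set M := max N (max k N₀) + 1 with hM
    have hkM : k < M := by
      have := le_max_left k N₀
      have := le_max_right N (max k N₀)
      omega
    have hNM : N ≤ M := by
      have := le_max_left N (max k N₀)
      omega
    let H : ℝ → ℝ := fun s => F + η + (G s - G s0) + η * (s - s0)
    have hGm : ∀ x ∈ Icc s0 S', G s0 ≤ G x := by
      apply mono_of_rd cG dG
      intro x hx
      exact (inb_nonneg h.c0 k x).trans (hG x hx)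
    have hHlow : ∀ x ∈ Icc s0 S', F + η ≤ H x := by
      intro x hx
      have := hGm x hx
      have h2 : 0 ≤ η * (x - s0) := mul_nonneg hη.le (by linarith [hx.1])
      simp only [H]
      linarith
    have hHc : ContinuousOn H (Icc s0 S') := by
      simp only [H]
      exact (continuousOn_const.add (cG.sub continuousOn_const)).add (by fun_prop)
    have hHd : ∀ x ∈ Ico s0 S', RD H (G' x + η) x := by
      intro x hx
      have h1 := (((dG x hx).sub_const (G s0)).const_add (F + η)).fun_add (rd_lin η s0 x)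
      exact h1
    have hb := image_le_of_deriv_right_lt_deriv_boundary'
      (f := E b a k M)
      (f' := fun s => 2 * (inb c a k s * b k s - inb c a M s * b M s)
        - 2 * ∑ j ∈ Finset.Ico k M, (e j * b j s ^ 2 + f j * a j s ^ 2))
      (a := s0) (b := S')
      ((h.cE k M).mono hsub) (fun x hx => h.dE hkM.le x (hI x hx))
      (B := fun s => H s ^ 2) (B' := fun s => 2 * H s * (G' s + η))
      (by
        have ha := hHlow s0 ⟨le_rfl, hs.1.trans hs.2⟩
        calc E b a k M s0 ≤ F ^ 2 := hE0 M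
          _ ≤ H s0 ^ 2 := by
            apply pow_le_pow_left₀ hF
            linarith)
      (hHc.pow 2)
      (by
        intro x hx
        have := (hHd x hx).fun_pow 2
        simpa using this)
      (by
        intro x hx hx2
        have hxI : x ∈ Icc s0 S' := ⟨hx.1, hx.2.le⟩
        have hH0 : η ≤ H x := by linarith [hHlow x hxI]
        have hHpos : 0 < H x := lt_of_lt_of_le hη hH0
        have hflx : |inb c a M x * b M x| ≤ η ^ 2 / 2 := by
          rw [hM]
          simp only [inb]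
          apply hN₀ _ _ x (hJ x hx)
          have := le_max_right k N₀
          have := le_max_right N (max k N₀)
          omega
        have hsum : 0 ≤ ∑ j ∈ Finset.Ico k M, (e j * b j x ^ 2 + f j * a j x ^ 2) :=
          Finset.sum_nonneg fun j _ => add_nonneg (mul_nonneg (h.e0 j) (sq_nonneg _))
            (mul_nonneg (h.f0 j) (sq_nonneg _))
        have hbk : |b k x| ≤ H x := by
          apply abs_le_of_sq_le_sq _ hHpos.le
          rw [← hx2]
          have := sq_le_E (b := b) (a := a) le_rfl hkM x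
          nlinarith [sq_nonneg (a k x)]
        have h3 : inb c a k x * b k x ≤ G' x * H x := by
          have h4 : inb c a k x * b k x ≤ inb c a k x * H x :=
            mul_le_mul_of_nonneg_left ((le_abs_self _).trans hbk) (inb_nonneg h.c0 k x)
          have h5 : inb c a k x * H x ≤ G' x * H x :=
            mul_le_mul_of_nonneg_right (hG x hx) hHpos.le
          linarith
        have h6 := (abs_le.1 hflx).1
        have h7 : η * η ≤ H x * η := mul_le_mul_of_nonneg_right hH0 hη.le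
        have h8 : 0 < η ^ 2 := by positivity
        nlinarith)
    have h1 := hb hs
    exact (E_mono hNM s).trans h1
  have hlim : Tendsto (fun η : ℝ => (F + η + (G s - G s0) + η * (s - s0)) ^ 2)
      (𝓝[>] 0) (𝓝 ((F + 0 + (G s - G s0) + 0 * (s - s0)) ^ 2)) := by
    apply tendsto_nhdsWithin_of_tendsto_nhds
    apply Continuous.tendsto
    fun_prop
  have h2 := ge_of_tendsto hlim (eventually_nhdsWithin_of_forall fun η hη => key η hη)
  simpa using h2

/-- the energy does not grow -/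
lemma Sys.energy (h : Sys c al e f S b a) (h0 : ∀ N, E b a 0 N 0 ≤ 1) :
    ∀ N, ∀ s ∈ Icc 0 S, E b a 0 N s ≤ 1 := by
  intro N s hs
  have := h.tail (k := 0) (s0 := 0) (S' := S) (F := 1) le_rfl le_rfl zero_le_one
    (G := fun _ => 0) (G' := fun _ => 0) continuousOn_const
    (fun _ _ => hasDerivWithinAt_const _ _ _) (fun _ _ => le_rfl) (by simpa using h0) N s hs
  simpa using this

lemma abs_b_le {k N j : ℕ} {s A : ℝ} (hA : 0 ≤ A) (h1 : k ≤ j) (h2 : j < N)
    (h : E b a k N s ≤ A ^ 2) : |b j s| ≤ A := by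
  apply abs_le_of_sq_le_sq _ hA
  have := sq_le_E (b := b) (a := a) h1 h2 s
  nlinarith [sq_nonneg (a j s)]

lemma abs_a_le {k N j : ℕ} {s A : ℝ} (hA : 0 ≤ A) (h1 : k ≤ j) (h2 : j < N)
    (h : E b a k N s ≤ A ^ 2) : |a j s| ≤ A := by
  apply abs_le_of_sq_le_sq _ hA
  have := sq_le_E (b := b) (a := a) h1 h2 s
  nlinarith [sq_nonneg (b j s)]

/-- positivity of the intermediate shells -/
lemma Sys.pos (h : Sys c al e f S b a) (h0 : ∀ N, E b a 0 N 0 ≤ 1) (ha : ∀ k, 0 ≤ a k 0) :
    ∀ k, ∀ s ∈ Icc 0 S, 0 ≤ a k s := by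
  intro k s hs
  have hen := h.energy h0
  have hS : 0 ≤ S := hs.1.trans hs.2
  set C := 2 * c k + f k with hC
  have hC0 : 0 ≤ C := by have := h.c0 k; have := h.f0 k; positivity
  have key : ∀ ε : ℝ, 0 < ε → 0 ≤ a k s + ε * Real.exp ((C + 1) * s) := by
    intro ε hε
    refine barrier (f := fun s => a k s + ε * Real.exp ((C + 1) * s))
      (a := 0) (b := S) ((h.ca k).add (by fun_prop))
      (fun r hr => (h.da k r hr).fun_add (((rd_lin0 (C + 1) r).exp).const_mul ε))
      (by
        have := ha k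
        positivity)
      (fun r hr hr0 => ?_) s hs
    have hr' : r ∈ Icc 0 S := ⟨hr.1, hr.2.le⟩
    set m := ε * Real.exp ((C + 1) * r) with hm
    have hm0 : 0 < m := mul_pos hε (Real.exp_pos _)
    have ha' : a k r = -m := by linarith
    have hb1 : |b k r| ≤ 1 := abs_b_le zero_le_one (Nat.zero_le k) (Nat.lt_succ_self k)
      (by rw [one_pow]; exact hen _ r hr')
    have hb2 : |b (k + 1) r| ≤ 1 := abs_b_le zero_le_one (Nat.zero_le _)
      (Nat.lt_succ_self (k + 1)) (by rw [one_pow]; exact hen _ r hr')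
    have hb1' := abs_le.1 hb1
    have hb2' := abs_le.1 hb2
    have hc := h.c0 k
    have hf := h.f0 k
    have h1 : 0 ≤ c k * (al k * b k r ^ 2) := mul_nonneg hc (mul_nonneg (h.al0 k) (sq_nonneg _))
    have h2 : 0 ≤ m * c k * (2 - (b k r - b (k + 1) r)) :=
      mul_nonneg (by positivity) (by linarith)
    rw [ha']
    have h3 : ε * (Real.exp ((C + 1) * r) * (C + 1)) = m * (C + 1) := by rw [hm]; ring
    rw [h3, hC]
    have h4 : 0 ≤ f k * m := by positivity
    nlinarith
  have hlim : Tendsto (fun ε : ℝ => a k s + ε * Real.exp ((C + 1) * s))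
      (𝓝[>] 0) (𝓝 (a k s + 0 * Real.exp ((C + 1) * s))) := by
    apply tendsto_nhdsWithin_of_tendsto_nhds
    apply Continuous.tendsto
    fun_prop
  have h2 := ge_of_tendsto hlim (eventually_nhdsWithin_of_forall fun η hη => key η hη)
  simpa using h2

lemma rd_comp {g : ℝ → ℝ} {v s0 r u : ℝ} (hr : 0 < r) (h : RD g v (s0 + u / r)) :
    RD (fun u => g (s0 + u / r)) (v / r) u := by
  have h1 : RD (fun u => s0 + u / r) (1 / r) u :=
    (((hasDerivAt_id' u).hasDerivWithinAt (s := Ici u)).div_const r).const_add s0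
  have h2 := HasDerivWithinAt.scomp u h h1 (fun x hx => by
    simp only [mem_Ici] at hx ⊢
    have : u / r ≤ x / r := by gcongr
    linarith)
  refine h2.congr_deriv ?_
  simp only [smul_eq_mul]
  ring

/-- rescaling of time -/
lemma Sys.scale (h : Sys c al e f S b a) {s0 r S' : ℝ} (hr : 0 < r) (h0 : 0 ≤ s0)
    (hS : s0 + S' / r ≤ S) :
    Sys (fun k => c k / r) al (fun k => e k / r) (fun k => f k / r) S'
      (fun k u => b k (s0 + u / r)) (fun k u => a k (s0 + u / r)) := by
  have hm : ∀ u ∈ Icc 0 S', s0 + u / r ∈ Icc 0 S := by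
    intro u hu
    have h1 : 0 ≤ u / r := div_nonneg hu.1 hr.le
    have h2 : u / r ≤ S' / r := by gcongr; exact hu.2
    exact ⟨by linarith, by linarith⟩
  have hm' : ∀ u ∈ Ico 0 S', s0 + u / r ∈ Ico 0 S := by
    intro u hu
    have h1 : 0 ≤ u / r := div_nonneg hu.1 hr.le
    have h2 : u / r < S' / r := by gcongr; exact hu.2
    exact ⟨by linarith, by linarith⟩
  have hcont : ∀ g : ℝ → ℝ, ContinuousOn g (Icc 0 S) →
      ContinuousOn (fun u => g (s0 + u / r)) (Icc 0 S') := by
    intro g hg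
    exact hg.comp (by fun_prop) hm
  refine ⟨fun k => div_nonneg (h.c0 k) hr.le, h.al0, fun k => div_nonneg (h.e0 k) hr.le,
    fun k => div_nonneg (h.f0 k) hr.le, fun k => hcont _ (h.cb k), fun k => hcont _ (h.ca k),
    ?_, ?_, ?_⟩
  · intro k u hu
    refine (rd_comp hr (h.db k _ (hm' u hu))).congr_deriv ?_
    cases k with
    | zero => simp only [inb]; ring
    | succ k => simp only [inb]; ring
  · intro k u hu
    refine (rd_comp hr (h.da k _ (hm' u hu))).congr_deriv ?_
    ring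
  · intro η hη
    obtain ⟨N₀, hN₀⟩ := h.fl (η * r) (by positivity)
    refine ⟨N₀, fun N hN u hu => ?_⟩
    have := hN₀ N hN _ (hm u hu)
    have h2 : c N / r * a N (s0 + u / r) ^ 2 * b (N + 1) (s0 + u / r) =
        (c N * a N (s0 + u / r) ^ 2 * b (N + 1) (s0 + u / r)) / r := by ring
    rw [h2, abs_div, abs_of_pos hr, div_le_iff₀ hr]
    exact this

end Pool.Agent.H42.Log
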