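import Pool.Agent.H42.Log.Stage3
import Pool.Agent.H42.Log.Sys

/-!
From one stage to the next.
-/

open Set Filter Topology

namespace Pool.Agent.H42.Log

open Pool.Agent.H42.Mix (RD mono_of_rd exists_antideriv)

/-- the function with the previous index -/
def pv (g : ℕ → ℝ → ℝ) : ℕ → ℝ → ℝ
  | 0 => fun _ => 0
  | m + 1 => g m

/-- the number with the previous index -/
def pn (g : ℕ → ℝ) : ℕ → ℝ
  | 0 => 0
  | m + 1 => g m

/-- the state at the beginning of stage `n` -/
structure Ready (al : ℕ → ℝ) (θ : ℝ) (n : ℕ) (s β : ℝ) (b a : ℕ → ℝ → ℝ) : Prop where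
  h1 : β ≤ b n s
  h2 : a n s ≤ θ
  h3 : ∀ j N, E b a (n + 1 + j) N s ≤ (θ / 32 ^ (j + 1)) ^ 2
  h4 : ∀ j, a (n + 1 + j) s ≤ al (n + 1 + j) * (θ / 32 ^ (j + 1))

variable {al e f : ℕ → ℝ} {S : ℝ} {b a : ℕ → ℝ → ℝ} {P : Pm}

/-- the standing hypotheses on a rescaled chain at the start of stage `n` -/
structure Sc (P : Pm) (al e f : ℕ → ℝ) (n : ℕ) (b a : ℕ → ℝ → ℝ) : Prop where
  sys : Sys (fun k => 32 ^ k / 32 ^ n) al e f P.L b a
  nu : Nu2 P
  pos : ∀ k, ∀ s ∈ Icc 0 P.L, 0 ≤ a k s
  en : ∀ N, ∀ s ∈ Icc 0 P.L, E b a 0 N s ≤ 1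
  am : P.am = al (n - 1)
  α : P.α = al n
  ap : P.ap = al (n + 1)
  θp : P.θ ≤ 4 * P.θp
  dw : pn f n ≤ P.D
  d0 : e n ≤ P.D
  d1 : f n ≤ P.D
  d2 : e (n + 1) ≤ P.D
  ready : Ready al P.θ n 0 P.β b a

lemma c_ratio (n j : ℕ) : (32 : ℝ) ^ (n + j) / 32 ^ n = 32 ^ j := by
  rw [pow_add]
  field_simp

/-- the stage of a rescaled chain -/
lemma Sc.st {n : ℕ} (h : Sc P al e f n b a) : ∃ F : Fn, St P F ∧ F.y = b (n + 1) ∧
    F.z = a (n + 1) := by
  have hL := h.nu.L10
  have hL0 : 0 ≤ P.L := by linarith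
  have hcn : (32 : ℝ) ^ n / 32 ^ n = 1 := by simp
  have hcn1 : (32 : ℝ) ^ (n + 1) / 32 ^ n = 32 := by have := c_ratio n 1; simpa using this
  obtain ⟨Φ, cΦ, Φ0, dΦ⟩ := exists_antideriv hL0 ((h.sys.ca n).pow 2)
  obtain ⟨Ψ, cΨ, Ψ0, dΨ⟩ := exists_antideriv (y := fun s => 32 * a (n + 1) s ^ 2) hL0
    ((continuousOn_const (c := (32 : ℝ))).mul ((h.sys.ca (n + 1)).pow 2))
  have hI : ∀ s ∈ Ico 0 P.L, s ∈ Icc 0 P.L := fun s hs => ⟨hs.1, hs.2.le⟩
  have hθ : 0 < P.θ := h.nu.α0.trans_le h.nu.αθ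
  have hΦm : ∀ s ∈ Icc 0 P.L, 0 ≤ Φ s := by
    intro s hs
    have := mono_of_rd (f := Φ) cΦ.continuousOn
      (fun r hr => (dΦ r (hI r hr)).hasDerivWithinAt) (fun r _ => sq_nonneg _) s hs
    rwa [Φ0] at this
  have hΨm : ∀ s ∈ Icc 0 P.L, 0 ≤ Ψ s := by
    intro s hs
    have := mono_of_rd (f := Ψ) cΨ.continuousOn
      (fun r hr => (dΨ r (hI r hr)).hasDerivWithinAt) (fun r _ => by positivity) s hs
    rwa [Ψ0] at this
  refine ⟨⟨pv a n, pv b n, b n, a n, b (n + 1), a (n + 1), b (n + 2), Φ, Ψ, pn f n, e n, f n,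
    e (n + 1), f (n + 1)⟩, ?_, rfl, rfl⟩
  have hpn : 0 ≤ pn f n := by
    cases n with
    | zero => exact le_rfl
    | succ m => exact h.sys.f0 m
  have cpv : ContinuousOn (pv a n) (Icc 0 P.L) := by
    cases n with
    | zero => exact continuousOn_const
    | succ m => exact h.sys.ca m
  have hinb : ∀ s, inb (fun k => 32 ^ k / 32 ^ n) a n s = 1 / 32 * pv a n s ^ 2 := by
    intro s
    cases n with
    | zero => simp [inb, pv]
    | succ m =>
      simp only [inb, pv]
      rw [pow_succ]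
      field_simp
  exact
  { n := h.nu.toNu
    dw0 := hpn
    dwD := h.dw
    d00 := h.sys.e0 n
    d0D := h.d0
    d10 := h.sys.f0 n
    d1D := h.d1
    d20 := h.sys.e0 (n + 1)
    d2D := h.d2
    d30 := h.sys.f0 (n + 1)
    cw := cpv
    cx := h.sys.cb n
    ca := h.sys.ca n
    cy := h.sys.cb (n + 1)
    cz := h.sys.ca (n + 1)
    cΦ := cΦ.continuousOn
    cΨ := cΨ.continuousOn
    dw := by
      intro s hs
      cases n with
      | zero =>
        refine (hasDerivWithinAt_const s (Ici s) (0 : ℝ)).congr_deriv ?_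
        simp [pv]
      | succ m =>
        refine (h.sys.da m s hs).congr_deriv ?_
        have e1 : (32 : ℝ) ^ m / 32 ^ (m + 1) = 1 / 32 := by
          rw [pow_succ]; field_simp
        have e2 : P.am = al m := h.am
        simp only [pv, pn]
        rw [e1, e2]
        ring
    dx := by
      intro s hs
      refine (h.sys.db n s hs).congr_deriv ?_
      rw [hinb, hcn, h.α]
      ring
    da := by
      intro s hs
      refine (h.sys.da n s hs).congr_deriv ?_
      rw [hcn, h.α]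
      ring
    dy := by
      intro s hs
      refine (h.sys.db (n + 1) s hs).congr_deriv ?_
      simp only [inb]
      rw [hcn, hcn1, h.ap]
      ring
    dz := by
      intro s hs
      refine (h.sys.da (n + 1) s hs).congr_deriv ?_
      rw [hcn1, h.ap]
    dΦ := fun s hs => (dΦ s (hI s hs)).hasDerivWithinAt
    dΨ := fun s hs => (dΨ s (hI s hs)).hasDerivWithinAt
    Φ0 := Φ0
    Ψ0 := Ψ0
    w0 := by
      intro s hs
      cases n with
      | zero => exact le_rfl
      | succ m => exact h.pos m s hs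
    a0 := h.pos n
    z0 := h.pos (n + 1)
    en := by
      intro s hs
      have h1 := h.en (n + 2) s hs
      simp only [E] at h1
      rw [Finset.sum_Ico_succ_top (Nat.zero_le _), Finset.sum_Ico_succ_top (Nat.zero_le _)] at h1
      have h2 : pv b n s ^ 2 + pv a n s ^ 2 ≤ ∑ j ∈ Finset.Ico 0 n, (b j s ^ 2 + a j s ^ 2) := by
        cases n with
        | zero => simp [pv]
        | succ m =>
          have := sq_le_E (b := b) (a := a) (Nat.zero_le m) (Nat.lt_succ_self m) s
          exact this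
      linarith
    yb := by
      intro s hs
      have h1 := h.sys.tail (k := n + 1) (s0 := 0) (S' := P.L) (F := P.θ / 32) (G := Φ)
        (G' := fun s => a n s ^ 2) le_rfl le_rfl (by positivity) cΦ.continuousOn
        (fun r hr => (dΦ r (hI r hr)).hasDerivWithinAt)
        (fun r hr => by simp only [inb]; rw [hcn, one_mul])
        (fun N => by
          have := h.ready.h3 0 N
          simpa using this) (n + 2) s hs
      rw [Φ0, sub_zero] at h1
      exact abs_b_le (by have := hΦm s hs; positivity) le_rfl (Nat.lt_succ_self _) h1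
    qb := by
      intro s hs
      have h1 := h.sys.tail (k := n + 2) (s0 := 0) (S' := P.L) (F := P.θ / 1024) (G := Ψ)
        (G' := fun s => 32 * a (n + 1) s ^ 2) le_rfl le_rfl (by positivity) cΨ.continuousOn
        (fun r hr => (dΨ r (hI r hr)).hasDerivWithinAt)
        (fun r hr => by simp only [inb]; rw [hcn1])
        (fun N => by
          have := h.ready.h3 1 N
          norm_num at this
          simpa using this) (n + 3) s hs
      rw [Ψ0, sub_zero] at h1
      exact abs_b_le (by have := hΨm s hs; positivity) le_rfl (Nat.lt_succ_self _) h1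
    xi := h.ready.h1
    ai := h.ready.h2
    zi := by
      have h1 := h.ready.h4 0
      simp only [add_zero, zero_add, pow_one] at h1
      rw [h.ap]
      have h2 : al (n + 1) * (P.θ / 32) ≤ al (n + 1) * P.θ :=
        mul_le_mul_of_nonneg_left (by linarith) (h.sys.al0 _)
      simpa using h1.trans h2 }

/-- the loss of a stage -/
noncomputable def loss (P : Pm) : ℝ := eS P + 2 * e' P + Real.exp (10 - P.K)

/-- **The step** in rescaled variables. -/
theorem Sc.step {n : ℕ} (h : Sc P al e f n b a) :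
    ∃ t ∈ Icc 0 P.L, Ready al P.θp (n + 1) t (P.β - loss P) b a := by
  obtain ⟨F, hF, hFy, hFz⟩ := h.st
  obtain ⟨t1, ht1, hat1, hb⟩ := hF.t1
  have hK := h.nu.K10
  have hL := h.nu.L10
  have hS : St1 P F t1 := ⟨hF, ht1.1, by linarith [ht1.2], hat1, hb⟩
  have hθ : 0 < P.θ := h.nu.α0.trans_le h.nu.αθ
  have hθp : 0 < P.θp := h.nu.ap0.trans_le h.nu.apθ
  set t2 := t1 + P.K with ht2
  have ht2L : t2 ≤ P.L := hS.tK
  have ht20 : 0 ≤ t2 := by linarith [ht1.1]
  have hsub : Icc 0 t2 ⊆ Icc 0 P.L := Icc_subset_Icc_right ht2L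
  have hθpL := h.nu.θpL
  -- the induction over the tail
  have hC3 : ∀ j : ℕ, P.θ / 32 ^ (j + 2) + 32 ^ (j + 1) * (P.θp / 32 ^ j) ^ 2 * P.L ≤
      P.θp / 32 ^ (j + 1) := by
    intro j
    have h1 : P.θ / 32 + 1024 * P.θp ^ 2 * P.L ≤ P.θp := by
      have e1 := h.θp
      have e2 : P.θp * (P.θp * P.L) ≤ P.θp * (1 / 10 ^ 6) := mul_le_mul_of_nonneg_left hθpL hθp.le
      norm_num at e2
      nlinarith
    have h2 : P.θ / 32 ^ (j + 2) + 32 ^ (j + 1) * (P.θp / 32 ^ j) ^ 2 * P.L =
        (P.θ / 32 + 1024 * P.θp ^ 2 * P.L) / 32 ^ (j + 1) := by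
      have : (32 : ℝ) ^ j ≠ 0 := by positivity
      rw [pow_succ, pow_succ]
      field_simp
      ring
    rw [h2]
    gcongr
  have htail : ∀ j : ℕ, (∀ u ∈ Icc 0 t2, a (n + 1 + j) u ≤ P.θp / 32 ^ j) →
      ∀ N, ∀ u ∈ Icc 0 t2, E b a (n + 2 + j) N u ≤ (P.θp / 32 ^ (j + 1)) ^ 2 := by
    intro j hj N u hu
    have hc : (32 : ℝ) ^ (n + 1 + j) / 32 ^ n = 32 ^ (j + 1) := by
      rw [show n + 1 + j = n + (j + 1) by ring]; exact c_ratio n (j + 1)
    have h1 := h.sys.tail (k := n + 2 + j) (s0 := 0) (S' := t2) (F := P.θ / 32 ^ (j + 2))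
      (G := fun s => 32 ^ (j + 1) * (P.θp / 32 ^ j) ^ 2 * s)
      (G' := fun _ => 32 ^ (j + 1) * (P.θp / 32 ^ j) ^ 2) le_rfl ht2L (by positivity) (by fun_prop)
      (fun r hr => rd_lin0 _ r)
      (fun r hr => by
        have e1 : n + 2 + j = (n + 1 + j) + 1 := by ring
        rw [e1]
        simp only [inb]
        rw [hc]
        have e2 := hj r ⟨hr.1, hr.2.le⟩
        have e3 := h.pos (n + 1 + j) r ⟨hr.1, hr.2.le.trans ht2L⟩
        gcongr)
      (fun N => by
        have := h.ready.h3 (j + 1) N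
        rw [show n + 1 + (j + 1) = n + 2 + j by ring] at this
        exact this) N u hu
    refine h1.trans ?_
    apply pow_le_pow_left₀
    · have : 0 ≤ u := hu.1
      simp only [mul_zero, sub_zero]
      positivity
    · refine le_trans ?_ (hC3 j)
      simp only [mul_zero, sub_zero]
      have : 32 ^ (j + 1) * (P.θp / 32 ^ j) ^ 2 * u ≤
          32 ^ (j + 1) * (P.θp / 32 ^ j) ^ 2 * P.L := by
        apply mul_le_mul_of_nonneg_left (hu.2.trans ht2L)
        positivity
      linarith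
  have hind : ∀ j : ℕ, ∀ u ∈ Icc 0 t2, a (n + 1 + j) u ≤ P.θp / 32 ^ j := by
    intro j
    induction j with
    | zero =>
      intro u hu
      have := hS.z_small u hu
      rw [hFz] at this
      simpa using this
    | succ j ih =>
      intro u hu
      have h1 := htail j ih (n + 1 + (j + 1) + 1) u hu
      have h2 := abs_a_le (b := b) (a := a) (k := n + 2 + j) (N := n + 1 + (j + 1) + 1)
        (j := n + 1 + (j + 1)) (by positivity : 0 ≤ P.θp / 32 ^ (j + 1)) (by omega) (by omega) h1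
      exact (le_abs_self _).trans h2
  refine ⟨t2, ⟨ht20, ht2L⟩, ?_, ?_, ?_, ?_⟩
  · have := hS.transfer h.nu
    rw [hFy] at this
    simp only [loss]
    linarith
  · have := hind 0 t2 ⟨ht20, le_rfl⟩
    simpa using this
  · intro j N
    have := htail j (hind j) N t2 ⟨ht20, le_rfl⟩
    rw [show n + 1 + 1 + j = n + 2 + j by ring]
    exact this
  · intro j
    rw [show n + 1 + 1 + j = n + 2 + j by ring]
    set τ := P.θp / 32 ^ (j + 1) with hτ
    have hτ0 : 0 < τ := by positivity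
    set A := al (n + 2 + j) with hA
    have hA0 : 0 ≤ A := h.sys.al0 _
    have hc : (32 : ℝ) ^ (n + 2 + j) / 32 ^ n = 32 ^ (j + 2) := by
      rw [show n + 2 + j = n + (j + 2) by ring]; exact c_ratio n (j + 2)
    have hcτ : (32 : ℝ) ^ (j + 2) * τ = 32 * P.θp := by
      rw [hτ, pow_succ]
      field_simp
    have hbs : ∀ u ∈ Icc 0 t2, |b (n + 2 + j) u| ≤ τ ∧ |b (n + 2 + j + 1) u| ≤ τ := by
      intro u hu
      have h1 := htail j (hind j) (n + 2 + j + 2) u hu
      exact ⟨abs_b_le hτ0.le le_rfl (by omega) h1, abs_b_le hτ0.le (by omega) (by omega) h1⟩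
    have hg := gron_le_const (u := fun s => a (n + 2 + j) s + A * τ) (k := 64 * P.θp)
      (a := 0) (b := t2) (((h.sys.ca _).mono hsub).add continuousOn_const)
      (fun r hr => (h.sys.da (n + 2 + j) r ⟨hr.1, hr.2.trans_le ht2L⟩).add_const (A * τ))
      (fun r hr => by
        have hr' : r ∈ Icc 0 t2 := ⟨hr.1, hr.2.le⟩
        have ha0 := h.pos (n + 2 + j) r (hsub hr')
        have h1 := (hbs r hr').1
        have h2 := (hbs r hr').2
        have h3 := h.sys.f0 (n + 2 + j)
        rw [hc, ← hA]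
        have e1 : 32 ^ (j + 2) * b (n + 2 + j) r * (A * b (n + 2 + j) r + a (n + 2 + j) r)
            ≤ 32 ^ (j + 2) * τ * (A * τ + a (n + 2 + j) r) := by
          have e2 : b (n + 2 + j) r * (A * b (n + 2 + j) r + a (n + 2 + j) r) ≤
              τ * (A * τ + a (n + 2 + j) r) := by
            have e3 : b (n + 2 + j) r ^ 2 ≤ τ ^ 2 := sq_le_sq' (abs_le.1 h1).1 (abs_le.1 h1).2
            have e4 := mul_le_mul_of_nonneg_left e3 hA0
            have e5 := mul_le_mul_of_nonneg_right (abs_le.1 h1).2 ha0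
            nlinarith
          have e6 := mul_le_mul_of_nonneg_left e2 (by positivity : (0 : ℝ) ≤ 32 ^ (j + 2))
          nlinarith
        have e7 : -(32 ^ (j + 2) * a (n + 2 + j) r * b (n + 2 + j + 1) r) ≤
            32 ^ (j + 2) * τ * a (n + 2 + j) r := by
          have e5 := mul_le_mul_of_nonneg_right (abs_le.1 h2).1 ha0
          have e6 := mul_le_mul_of_nonneg_left e5 (by positivity : (0 : ℝ) ≤ 32 ^ (j + 2))
          nlinarith
        rw [hcτ] at e1 e7
        have e8 := mul_nonneg h3 ha0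
        have e9 : 0 ≤ P.θp * (A * τ) := by positivity
        nlinarith) t2 ⟨ht20, le_rfl⟩
    have h5 : a (n + 2 + j) 0 ≤ A * (τ / 8) := by
      have h6 := h.ready.h4 (j + 1)
      rw [show n + 1 + (j + 1) = n + 2 + j by ring] at h6
      refine h6.trans ?_
      rw [← hA]
      apply mul_le_mul_of_nonneg_left _ hA0
      rw [hτ, show (32 : ℝ) ^ (j + 1 + 1) = 32 ^ (j + 1) * 32 by rw [pow_succ]]
      rw [div_le_iff₀ (by positivity)]
      have e1 := h.θp
      have e2 : P.θp / 32 ^ (j + 1) / 8 * (32 ^ (j + 1) * 32) = 4 * P.θp := by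
        field_simp
        norm_num
      rw [e2]
      exact e1
    have h7 : Real.exp (64 * P.θp * (t2 - 0)) ≤ 16 / 9 := by
      have e1 : 64 * P.θp * (t2 - 0) ≤ 1 / 10 ^ 4 := by
        have : P.θp * t2 ≤ P.θp * P.L := mul_le_mul_of_nonneg_left ht2L hθp.le
        norm_num at hθpL ⊢
        linarith
      have e2 : Real.exp (64 * P.θp * (t2 - 0)) ≤ Real.exp (1 / 2) := by
        apply Real.exp_le_exp.2
        norm_num at e1 ⊢
        linarith
      have e3 : Real.exp (1 / 2) ≤ 16 / 9 := by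
        have e4 := Real.exp_one_lt_d9
        have e5 : Real.exp (1 / 2) ^ 2 = Real.exp 1 := by
          rw [← Real.exp_nat_mul]; norm_num
        have e6 := Real.exp_pos (1 / 2 : ℝ)
        nlinarith
      linarith
    have h8 : 0 ≤ A * τ := by positivity
    have h9 : (a (n + 2 + j) 0 + A * τ) * Real.exp (64 * P.θp * (t2 - 0)) ≤ 2 * (A * τ) := by
      have e1 : a (n + 2 + j) 0 + A * τ ≤ 9 / 8 * (A * τ) := by linarith
      calc (a (n + 2 + j) 0 + A * τ) * Real.exp (64 * P.θp * (t2 - 0))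
          ≤ 9 / 8 * (A * τ) * (16 / 9) :=
            mul_le_mul e1 h7 (Real.exp_pos _).le (by positivity)
        _ = 2 * (A * τ) := by ring
    linarith

end Pool.Agent.H42.Log
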