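import Pool.Agent.H42.Log.Num
import Pool.Agent.H39.Log.Defs

/-!
The cascade, and the theorem.
-/

open Set Filter Topology

namespace Pool.Agent.H42.Log

open Pool.Agent.H42.Mix (RD mono_of_rd exists_antideriv)
open Pool.Agent.H39.Log (IsSolS alS beS gainS S_P1)
open Pool.Agent.H39.Dy (Rapid)

variable {e f : ℕ → ℝ} {S : ℝ} {b a : ℕ → ℝ → ℝ}

/-- the base chain -/
structure Bc (e f : ℕ → ℝ) (S : ℝ) (b a : ℕ → ℝ → ℝ) : Prop where
  sys : Sys (fun k => 32 ^ k) alN e f S b a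
  E0 : ∀ N, E b a 0 N 0 ≤ 1
  a0 : ∀ k, a k 0 = 0
  b0 : b 0 0 = 1
  bn : ∀ k, b (k + 1) 0 = 0

/-- the dissipation relative to the rates of stage `n` -/
structure Ds (D : ℕ → ℝ) (e f : ℕ → ℝ) : Prop where
  D0 : ∀ n, 0 ≤ D n
  dw : ∀ n, pn f n ≤ D n * 32 ^ n
  d0 : ∀ n, e n ≤ D n * 32 ^ n
  d1 : ∀ n, f n ≤ D n * 32 ^ n
  d2 : ∀ n, e (n + 1) ≤ D n * 32 ^ n

/-- one stage of the base chain -/
lemma Bc.step (h : Bc e f S b a) {D : ℕ → ℝ} (hD : Ds D e f) {n : ℕ} {s β : ℝ}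
    (hDL : D n * LN n ≤ 1 / 10 ^ 5) (hβ : 95 / 100 ≤ β) (hs : 0 ≤ s)
    (hS : s + LN n / 32 ^ n ≤ S) (hR : Ready alN (thN n) n s β b a) :
    ∃ s', s ≤ s' ∧ s' ≤ s + LN n / 32 ^ n ∧
      Ready alN (thN (n + 1)) (n + 1) s' (β - (2 / NN n ^ 2 + 15 * (D n * LN n))) b a := by
  have hr : (0 : ℝ) < 32 ^ n := by positivity
  have hsc := h.sys.scale (s0 := s) (r := 32 ^ n) (S' := LN n) hr hs hS
  have hm : ∀ u ∈ Icc 0 (LN n), s + u / 32 ^ n ∈ Icc 0 S := by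
    intro u hu
    have h1 : 0 ≤ u / 32 ^ n := div_nonneg hu.1 hr.le
    have h2 : u / 32 ^ n ≤ LN n / 32 ^ n := by gcongr; exact hu.2
    exact ⟨by linarith, by linarith⟩
  have hd : ∀ v, v ≤ D n * 32 ^ n → v / 32 ^ n ≤ D n := by
    intro v hv
    rwa [div_le_iff₀ hr]
  have hSc : Sc (PN (D n) β n) alN (fun k => e k / 32 ^ n) (fun k => f k / 32 ^ n) n
      (fun k u => b k (s + u / 32 ^ n)) (fun k u => a k (s + u / 32 ^ n)) :=
  { sys := hsc
    nu := nuN n (hD.D0 n) hDL hβ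
    pos := fun k u hu => h.sys.pos h.E0 (fun k => (h.a0 k).ge) k _ (hm u hu)
    en := fun N u hu => h.sys.energy h.E0 N _ (hm u hu)
    am := rfl
    α := rfl
    ap := rfl
    θp := th_ratio n
    dw := by
      have h1 : pn (fun k => f k / 32 ^ n) n = pn f n / 32 ^ n := by
        cases n with
        | zero => simp [pn]
        | succ m => rfl
      rw [h1]
      exact hd _ (hD.dw n)
    d0 := hd _ (hD.d0 n)
    d1 := hd _ (hD.d1 n)
    d2 := hd _ (hD.d2 n)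
    ready := by
      have e0 : s + 0 / 32 ^ n = s := by simp
      refine ⟨?_, ?_, ?_, ?_⟩
      · simp only [e0]; exact hR.h1
      · simp only [e0]; exact hR.h2
      · intro j N
        have := hR.h3 j N
        simp only [E] at this ⊢
        simp only [e0]
        exact this
      · intro j
        simp only [e0]
        exact hR.h4 j }
  obtain ⟨t, ht, hR'⟩ := hSc.step
  refine ⟨s + t / 32 ^ n, ?_, ?_, ?_, hR'.h2, hR'.h3, hR'.h4⟩
  · have : 0 ≤ t / 32 ^ n := div_nonneg ht.1 hr.le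
    linarith
  · have : t / 32 ^ n ≤ LN n / 32 ^ n := by gcongr; exact ht.2
    linarith
  · have h1 := hR'.h1
    have h2 := lossN (D := D n) (β := β) n (hD.D0 n)
    refine le_trans ?_ h1
    have : (PN (D n) β n).β = β := rfl
    rw [this]
    linarith

/-- the level of `b n` at the beginning of stage `n` -/
noncomputable def bet (D : ℕ → ℝ) (n : ℕ) : ℝ :=
  1 - (2 / (10 ^ 8 - 1) - 2 / (NN n - 1)) - 15 * ∑ j ∈ Finset.range n, D j * LN j

lemma bet_ge {D : ℕ → ℝ} {n : ℕ} (h : ∑ j ∈ Finset.range n, D j * LN j ≤ 1 / 10 ^ 5) :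
    95 / 100 ≤ bet D n := by
  have h1 : 0 < 2 / (NN n - 1) := by
    have := NN_ge n
    apply div_pos two_pos
    linarith
  simp only [bet]
  norm_num at h ⊢
  linarith

lemma bet_succ {D : ℕ → ℝ} (n : ℕ) :
    bet D (n + 1) ≤ bet D n - (2 / NN n ^ 2 + 15 * (D n * LN n)) := by
  have hN := NN_ge n
  have hNp := NN_pos n
  have h1 : 2 / NN n ^ 2 + 2 / (NN (n + 1) - 1) ≤ 2 / (NN n - 1) := by
    rw [NN_succ, add_sub_cancel_right]
    have hp : 0 < NN n - 1 := by linarith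
    rw [div_add_div _ _ (by positivity) hNp.ne', div_le_div_iff₀ (by positivity) hp]
    nlinarith [sq_nonneg (NN n), mul_pos hNp hNp]
  simp only [bet]
  rw [Finset.sum_range_succ]
  linarith

lemma LN_div (n : ℕ) : LN n / 32 ^ n ≤ 2 * 10 ^ 8 * (1 - 1 / 16 ^ (n + 1)) -
    2 * 10 ^ 8 * (1 - 1 / 16 ^ n) := by
  have h1 := LN_le n
  have h2 : NN n ≤ 10 ^ 8 * 2 ^ n := by
    have h3 : (n : ℝ) + 1 ≤ 2 ^ n := by
      have := one_add_mul_le_pow (by norm_num : (-2 : ℝ) ≤ 1) n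
      norm_num at this
      linarith
    simp only [NN]
    have : (0 : ℝ) ≤ n := Nat.cast_nonneg n
    nlinarith
  have h3 : LN n / 32 ^ n ≤ 10 ^ 8 * 2 ^ n / 32 ^ n := by
    gcongr
    linarith
  have h4 : (10 ^ 8 * 2 ^ n / 32 ^ n : ℝ) = 10 ^ 8 * (1 / 16 ^ n) := by
    have : (32 : ℝ) ^ n = 2 ^ n * 16 ^ n := by rw [← mul_pow]; norm_num
    rw [this]
    field_simp
  have h5 : 2 * 10 ^ 8 * (1 - 1 / 16 ^ (n + 1)) - 2 * 10 ^ 8 * (1 - 1 / 16 ^ n) =
      (15 / 8 * 10 ^ 8 : ℝ) * (1 / 16 ^ n) := by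
    rw [pow_succ]
    field_simp
    ring
  rw [h5]
  rw [h4] at h3
  have h6 : (0 : ℝ) < 1 / 16 ^ n := by positivity
  nlinarith

/-- the iteration -/
theorem Bc.iterate (h : Bc e f S b a) {D : ℕ → ℝ} (hD : Ds D e f)
    (hsum : ∀ n, ∑ j ∈ Finset.range n, D j * LN j ≤ 1 / 10 ^ 5) (hS : 2 * 10 ^ 8 ≤ S) (n : ℕ) :
    ∃ s ∈ Icc 0 (2 * 10 ^ 8 * (1 - 1 / 16 ^ n)), Ready alN (thN n) n s (bet D n) b a := by
  induction n with
  | zero =>
    refine ⟨0, ⟨le_rfl, by norm_num⟩, ?_, ?_, ?_, ?_⟩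
    · rw [h.b0]
      simp only [bet, NN]
      norm_num
    · rw [h.a0 0]; exact (th_pos 0).le
    · intro j N
      have : E b a (0 + 1 + j) N 0 = 0 := by
        apply Finset.sum_eq_zero
        intro i hi
        obtain ⟨m, rfl⟩ : ∃ m, i = m + 1 := ⟨i - 1, by
          have := (Finset.mem_Ico.1 hi).1
          omega⟩
        rw [h.a0, h.bn]
        ring
      rw [this]
      exact sq_nonneg _
    · intro j
      rw [h.a0]
      exact mul_nonneg (al_pos _).le (div_nonneg (th_pos 0).le (pow_nonneg (by norm_num) _))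
  | succ n ih =>
    obtain ⟨s, hs, hR⟩ := ih
    have hDL : D n * LN n ≤ 1 / 10 ^ 5 := by
      have h1 := hsum (n + 1)
      rw [Finset.sum_range_succ] at h1
      have h2 : 0 ≤ ∑ j ∈ Finset.range n, D j * LN j :=
        Finset.sum_nonneg fun j _ => mul_nonneg (hD.D0 j) (by linarith [LN_pos j])
      linarith
    have h1 := LN_div n
    have h2 : (0 : ℝ) < 1 / 16 ^ (n + 1) := by positivity
    have h3 : s + LN n / 32 ^ n ≤ 2 * 10 ^ 8 * (1 - 1 / 16 ^ (n + 1)) := by linarith [hs.2]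
    obtain ⟨s', hs1, hs2, hR'⟩ := h.step hD hDL (bet_ge (hsum n)) hs.1 (by nlinarith) hR
    exact ⟨s', ⟨hs.1.trans hs1, hs2.trans h3⟩, (bet_succ n).trans hR'.h1, hR'.h2, hR'.h3, hR'.h4⟩

end Pool.Agent.H42.Log
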