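import Pool.Agent.H42.Log.Iter

/-!
The numerical conditions.
-/

open Set Filter Topology

namespace Pool.Agent.H42.Log

/-- the large parameter -/
noncomputable def NN (n : ℕ) : ℝ := n + 10 ^ 8

noncomputable def ll (n : ℕ) : ℝ := Real.log (NN n)

/-- the seeds -/
noncomputable def alN (n : ℕ) : ℝ := 1 / NN n ^ 600

noncomputable def thN (n : ℕ) : ℝ := 1 / NN n ^ 300

noncomputable def LN (n : ℕ) : ℝ := 1202 * ll n + 10

lemma NN_ge (n : ℕ) : 10 ^ 8 ≤ NN n := by
  simp only [NN]
  have : (0 : ℝ) ≤ n := Nat.cast_nonneg n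
  linarith

lemma NN_pos (n : ℕ) : 0 < NN n := by linarith [NN_ge n]

lemma NN_succ (n : ℕ) : NN (n + 1) = NN n + 1 := by
  simp only [NN]; push_cast; ring

lemma exp_ll (n k : ℕ) : Real.exp (k * ll n) = NN n ^ k := by
  rw [Real.exp_nat_mul, ll, Real.exp_log (NN_pos n)]

lemma ll_ge (n : ℕ) : 18 ≤ ll n := by
  rw [ll, Real.le_log_iff_exp_le (NN_pos n)]
  refine le_trans ?_ (NN_ge n)
  have e2 := Real.exp_one_lt_d9
  have e3 : Real.exp 18 = Real.exp 1 ^ 18 := by
    rw [← Real.exp_nat_mul]; norm_num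
  rw [e3]
  have e4 : Real.exp 1 ^ 18 ≤ (272 / 100 : ℝ) ^ 18 :=
    pow_le_pow_left₀ (Real.exp_pos _).le (by linarith) 18
  refine e4.trans ?_
  norm_num

lemma LN_le (n : ℕ) : LN n ≤ NN n := by
  have hN := NN_ge n
  have hp := NN_pos n
  set r := Real.sqrt (NN n) with hr
  have hr2 : r ^ 2 = NN n := Real.sq_sqrt hp.le
  have hr0 : 0 ≤ r := Real.sqrt_nonneg _
  have hr4 : 10 ^ 4 ≤ r := by
    rw [hr]
    apply Real.le_sqrt_of_sq_le
    norm_num at hN ⊢
    exact hN
  have hrp : 0 < r := by linarith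
  have hl : ll n = 2 * Real.log r := by
    rw [ll, ← hr2, Real.log_pow]
    norm_num
  have h1 := Real.log_le_sub_one_of_pos hrp
  rw [LN, hl, ← hr2]
  nlinarith

lemma LN_pos (n : ℕ) : 10 ≤ LN n := by
  have := ll_ge n
  simp only [LN]
  linarith

lemma inv_pow_le (n : ℕ) {k m : ℕ} (h : m ≤ k) : 1 / NN n ^ k ≤ 1 / NN n ^ m := by
  apply one_div_le_one_div_of_le (pow_pos (NN_pos n) m)
  exact pow_le_pow_right₀ (by linarith [NN_ge n]) h

lemma al_pos (n : ℕ) : 0 < alN n := by have := NN_pos n; simp only [alN]; positivity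

lemma th_pos (n : ℕ) : 0 < thN n := by have := NN_pos n; simp only [thN]; positivity

/-- `1 / N ^ k` is small -/
lemma small (n k : ℕ) : 1 / NN n ^ k ≤ 1 / (10 ^ 8) ^ k := by
  apply one_div_le_one_div_of_le (by positivity)
  exact pow_le_pow_left₀ (by positivity) (NN_ge n) k

lemma inv_mul (n k : ℕ) : 1 / NN n ^ (k + 1) * NN n = 1 / NN n ^ k := by
  have := NN_pos n
  rw [pow_succ]
  field_simp

/-- the previous seed -/
lemma am_le (n : ℕ) : alN (n - 1) ≤ 1 / NN n ^ 3 := by
  have h0 : NN n ≤ NN (n - 1) ^ 2 := by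
    have h1 := NN_ge (n - 1)
    have h2 : NN n ≤ NN (n - 1) + 1 := by
      cases n with
      | zero => simp [NN]
      | succ m => rw [NN_succ]; simp
    nlinarith
  have h1 : 1 / NN (n - 1) ^ 600 ≤ 1 / NN n ^ 300 := by
    apply one_div_le_one_div_of_le (pow_pos (NN_pos n) _)
    calc NN n ^ 300 ≤ (NN (n - 1) ^ 2) ^ 300 := pow_le_pow_left₀ (NN_pos n).le h0 300
      _ = NN (n - 1) ^ 600 := by rw [← pow_mul]
  exact h1.trans (inv_pow_le n (by norm_num))

/-- the parameters of stage `n` -/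
noncomputable def PN (D β : ℝ) (n : ℕ) : Pm where
  am := alN (n - 1)
  α := alN n
  ap := alN (n + 1)
  θ := thN n
  θp := thN (n + 1)
  K := 10 + 2 * ll n
  L := LN n
  D := D
  β := β
  ℓ := ll n
  ω := 5 / NN n ^ 2

lemma nuN {D β : ℝ} (n : ℕ) (hD : 0 ≤ D) (hDL : D * LN n ≤ 1 / 10 ^ 5) (hβ : 95 / 100 ≤ β) :
    Nu2 (PN D β n) := by
  have hN := NN_ge n
  have hNp := NN_pos n
  have hN1 := NN_ge (n + 1)
  have hNp1 := NN_pos (n + 1)
  have hl := ll_ge n
  have hLN := LN_le n
  have hL10 := LN_pos n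
  have hθL : ∀ m : ℕ, 1 / NN n ^ (m + 2) * LN n ≤ 1 / NN n ^ (m + 1) := by
    intro m
    calc 1 / NN n ^ (m + 2) * LN n ≤ 1 / NN n ^ (m + 2) * NN n :=
          mul_le_mul_of_nonneg_left hLN (by positivity)
      _ = 1 / NN n ^ (m + 1) := inv_mul n (m + 1)
  have hth : thN n ≤ 1 / NN n ^ 3 := inv_pow_le n (by norm_num)
  have hth1 : thN (n + 1) ≤ 1 / NN n ^ 3 := by
    refine (inv_pow_le (n + 1) (by norm_num : 3 ≤ 300)).trans ?_
    apply one_div_le_one_div_of_le (by positivity)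
    apply pow_le_pow_left₀ hNp.le
    rw [NN_succ]; linarith
  have hs3 := small n 3
  have hs2 := small n 2
  have hs4 := small n 4
  refine ⟨⟨?_, ?_, ?_, ?_, ?_, ?_, ?_, ?_, ?_, ?_, hD, hDL, ?_, ?_, ?_, ?_, ?_, ?_, ?_, hβ⟩, ?_⟩
  · exact (al_pos _).le
  · refine (am_le n).trans (hs3.trans ?_)
    norm_num
  · exact al_pos n
  · exact inv_pow_le n (by norm_num)
  · refine hth.trans (hs3.trans ?_)
    norm_num
  · exact al_pos _
  · exact inv_pow_le (n + 1) (by norm_num)
  · refine hth1.trans (hs3.trans ?_)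
    norm_num
  · simp only [PN]; linarith
  · simp only [PN, LN, alN]
    rw [one_div_one_div, Real.log_pow]
    simp only [ll]
    push_cast
    linarith
  · have h1 : thN n * LN n ≤ 1 / NN n ^ 3 * LN n :=
      mul_le_mul_of_nonneg_right hth (by linarith)
    have h2 := hθL 1
    simp only [PN]
    refine h1.trans (h2.trans (hs2.trans ?_))
    norm_num
  · have h1 : thN (n + 1) * LN n ≤ 1 / NN n ^ 3 * LN n :=
      mul_le_mul_of_nonneg_right hth1 (by linarith)
    have h2 := hθL 1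
    simp only [PN]
    refine h1.trans (h2.trans (hs2.trans ?_))
    norm_num
  · simp only [PN]
    have h1 : Real.exp (32 * (10 + 2 * ll n + 1)) ≤ NN n ^ 84 := by
      rw [← exp_ll]
      apply Real.exp_le_exp.2
      push_cast
      linarith
    have h2 : NN n ^ 84 ≤ NN (n + 1) ^ 84 := by
      apply pow_le_pow_left₀ hNp.le
      rw [NN_succ]; linarith
    calc 2 * alN (n + 1) * Real.exp (32 * (10 + 2 * ll n + 1))
        ≤ NN (n + 1) * alN (n + 1) * NN (n + 1) ^ 84 := by
          apply mul_le_mul _ (h1.trans h2) (Real.exp_pos _).le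
          · have := al_pos (n + 1); positivity
          · apply mul_le_mul_of_nonneg_right _ (al_pos _).le
            linarith
      _ = 1 / NN (n + 1) ^ 515 := by
          simp only [alN]
          field_simp
      _ ≤ thN (n + 1) := inv_pow_le (n + 1) (by norm_num)
  · simp only [PN]; linarith
  · simp only [PN]
    have h1 : Real.exp (243 * ll n) = NN n ^ 243 := by
      have := exp_ll n 243
      push_cast at this
      exact this
    rw [h1]
    have h2 : 40 * thN n * NN n ^ 243 = 40 * (1 / NN n ^ 57) := by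
      simp only [thN]
      field_simp
    rw [h2]
    have h3 := inv_pow_le n (by norm_num : 1 ≤ 57)
    have h4 := small n 1
    norm_num at h3 h4 ⊢
    linarith
  · simp only [PN]
    have h1 : Real.exp (-(3 * ll n)) = 1 / NN n ^ 3 := by
      rw [Real.exp_neg]
      have := exp_ll n 3
      push_cast at this
      rw [this, one_div]
    have h2 : Real.exp ((10 + 2 * ll n) / 16) ≤ NN n := by
      have := exp_ll n 1
      simp only [Nat.cast_one, one_mul, pow_one] at this
      rw [← this]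
      apply Real.exp_le_exp.2
      linarith
    rw [h1]
    have h3 := am_le n
    calc (1 / NN n ^ 3 + 4 * alN (n - 1)) * Real.exp ((10 + 2 * ll n) / 16)
        ≤ (5 * (1 / NN n ^ 3)) * NN n := by
          apply mul_le_mul (by linarith) h2 (Real.exp_pos _).le (by positivity)
      _ = 5 * (1 / NN n ^ 3 * NN n) := by ring
      _ = 5 / NN n ^ 2 := by rw [inv_mul n 2]; ring
  · simp only [PN]
    have h1 : 10 + 2 * ll n ≤ LN n := by simp only [LN]; linarith
    have h2 : (5 / NN n ^ 2) ^ 2 * (10 + 2 * ll n) ≤ 25 * (1 / NN n ^ 4 * LN n) := by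
      have : (5 / NN n ^ 2) ^ 2 * (10 + 2 * ll n) = 25 * (1 / NN n ^ 4 * (10 + 2 * ll n)) := by
        field_simp; ring
      rw [this]
      gcongr
    have h3 := hθL 2
    norm_num at h3 hs3 ⊢
    norm_num at h2
    linarith
  · simp only [PN]
    have h2 : (5 / NN n ^ 2) ^ 2 * LN n = 25 * (1 / NN n ^ 4 * LN n) := by
      field_simp; ring
    rw [h2]
    have h3 := hθL 2
    norm_num at h3 hs3 ⊢
    linarith

/-- the loss of a stage -/
lemma lossN {D β : ℝ} (n : ℕ) (hD : 0 ≤ D) :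
    loss (PN D β n) ≤ 2 / NN n ^ 2 + 15 * (D * LN n) := by
  have hN := NN_ge n
  have hNp := NN_pos n
  have hLN := LN_le n
  have hL10 := LN_pos n
  have hth : thN n ≤ 1 / NN n ^ 4 := inv_pow_le n (by norm_num)
  have hal : alN n ≤ 1 / NN n ^ 4 := inv_pow_le n (by norm_num)
  have hth1 : thN (n + 1) ^ 2 ≤ 1 / NN n ^ 4 := by
    have h1 : thN (n + 1) ≤ 1 / NN n ^ 2 := by
      refine (inv_pow_le (n + 1) (by norm_num : 2 ≤ 300)).trans ?_
      apply one_div_le_one_div_of_le (by positivity)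
      apply pow_le_pow_left₀ hNp.le
      rw [NN_succ]; linarith
    calc thN (n + 1) ^ 2 ≤ (1 / NN n ^ 2) ^ 2 := pow_le_pow_left₀ (th_pos _).le h1 2
      _ = 1 / NN n ^ 4 := by rw [div_pow, one_pow, ← pow_mul]
  set x := 1 / NN n ^ 4 with hx
  have hx0 : 0 < x := by positivity
  have hω : (5 / NN n ^ 2) ^ 2 = 25 * x := by
    rw [hx, div_pow, ← pow_mul]
    ring
  have hexp : Real.exp (10 - (10 + 2 * ll n)) = 1 / NN n ^ 2 := by
    rw [show 10 - (10 + 2 * ll n) = -(2 * ll n) by ring, Real.exp_neg]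
    have := exp_ll n 2
    push_cast at this
    rw [this, one_div]
  have hxL : x * LN n ≤ 1 / NN n ^ 3 := by
    calc x * LN n ≤ x * NN n := mul_le_mul_of_nonneg_left hLN hx0.le
      _ = 1 / NN n ^ 3 := by rw [hx]; exact inv_mul n 3
  have hN3 : 1000 * (1 / NN n ^ 3) ≤ 1 / NN n ^ 2 := by
    rw [← inv_mul n 2]
    have : 0 < 1 / NN n ^ 3 := by positivity
    nlinarith
  have e1 : thN n * LN n ≤ x * LN n := mul_le_mul_of_nonneg_right hth (by linarith)
  have e2 : alN n * LN n ≤ x * LN n := mul_le_mul_of_nonneg_right hal (by linarith)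
  have e3 : thN (n + 1) ^ 2 * LN n ≤ x * LN n := mul_le_mul_of_nonneg_right hth1 (by linarith)
  have e4 : x ≤ x * LN n := by nlinarith
  have e5 : D ≤ 1 / 10 * (D * LN n) := by nlinarith
  simp only [loss, eS, e', eJ, cJ, PN, hω, hexp]
  have e6 : (2 : ℝ) / NN n ^ 2 = 2 * (1 / NN n ^ 2) := by ring
  rw [e6]
  nlinarith

/-- the ratio of two successive thresholds -/
lemma th_ratio (n : ℕ) : thN n ≤ 4 * thN (n + 1) := by
  have hN := NN_ge n
  have hNp := NN_pos n
  have hNp1 := NN_pos (n + 1)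
  simp only [thN]
  rw [mul_one_div, div_le_div_iff₀ (by positivity) (by positivity), one_mul]
  have h1 : NN (n + 1) ≤ NN n * Real.exp (1 / NN n) := by
    have h2 := Real.add_one_le_exp (1 / NN n)
    have h3 := mul_le_mul_of_nonneg_left h2 hNp.le
    have h4 : NN n * (1 / NN n + 1) = NN (n + 1) := by
      rw [NN_succ]; field_simp; ring
    linarith
  have h2 : NN (n + 1) ^ 300 ≤ (NN n * Real.exp (1 / NN n)) ^ 300 :=
    pow_le_pow_left₀ hNp1.le h1 300
  have h3 : (NN n * Real.exp (1 / NN n)) ^ 300 = NN n ^ 300 * Real.exp (300 * (1 / NN n)) := by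
    rw [mul_pow, ← Real.exp_nat_mul]
    norm_num
  have h4 : Real.exp (300 * (1 / NN n)) ≤ 4 := by
    have h5 : 300 * (1 / NN n) ≤ 1 := by
      have := small n 1
      norm_num at this ⊢
      linarith
    have h6 := Real.exp_le_exp.2 h5
    have h7 := Real.exp_one_lt_d9
    linarith
  rw [h3] at h2
  have h5 : NN n ^ 300 * Real.exp (300 * (1 / NN n)) ≤ NN n ^ 300 * 4 :=
    mul_le_mul_of_nonneg_left h4 (by positivity)
  linarith

end Pool.Agent.H42.Log
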