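import Pool.Agent.H42.Log.LocalV

/-!
**P2**: uniqueness, and global smooth solution or blow-up, for dyadic systems with variable
coefficients.
-/

open Set Filter Topology

namespace Pool.Agent.H42.Log2

open Pool.Agent.H39.Dy (prev Q Bd Rapid)
open Pool.Agent.H39.Log (gainS IsSolS Fast BlowsS S_P2a S_P2b)

variable {α β : ℕ → ℝ} {B K₀ : ℝ} {d : ℕ → ℝ}

theorem field_eq (hB : 0 < B) (α β : ℕ → ℝ) (c : ℝ) (x : ℕ → ℝ) (n : ℕ) :
    gainS α β B x n - c * x n - B ^ n * x (n + 1) * (α n * x n + β n * x (n + 1)) =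
      (Q (prev α n * B) (prev β n) (-(α n / B)) (-(β n / B ^ 2)) (prev (fun k => B ^ k * x k) n)
        (B ^ n * x n) (B ^ (n + 1) * x (n + 1)) - c * (B ^ n * x n)) / B ^ n := by
  cases n with
  | zero =>
    simp only [gainS, prev, Q]
    field_simp
    ring
  | succ m =>
    simp only [gainS, prev, Q]
    have : B ^ (m + 1) ≠ 0 := by positivity
    field_simp
    ring

theorem isSolS_iff (hB : 0 < B) {T : ℝ} (X : ℕ → ℝ → ℝ) :
    IsSolS α β B d T X ↔ IsS (fun n => prev α n * B) (fun n => prev β n) (fun n => -(α n / B))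
      (fun n => -(β n / B ^ 2)) d T (fun n t => B ^ n * X n t) := by
  constructor
  · intro h n t ht
    have h1 := (h n t ht).const_mul (B ^ n)
    refine h1.congr_deriv ?_
    rw [field_eq hB α β (d n) (fun k => X k t) n]
    field_simp
  · intro h n t ht
    have h1 := (h n t ht).div_const (B ^ n)
    have e : (fun t => B ^ n * X n t / B ^ n) = X n := by
      funext t
      field_simp
    rw [e] at h1
    refine h1.congr_deriv ?_
    rw [field_eq hB α β (d n) (fun k => X k t) n]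

theorem prev_le {α : ℕ → ℝ} (hα : ∀ n, |α n| ≤ K₀) (n : ℕ) : |prev α n| ≤ K₀ := by
  have h0 : 0 ≤ K₀ := (abs_nonneg _).trans (hα 0)
  cases n with
  | zero => simpa [prev] using h0
  | succ m => exact hα m

theorem coef_le (hB : 0 < B) (hα : ∀ n, |α n| ≤ K₀) (hβ : ∀ n, |β n| ≤ K₀) (n : ℕ) :
    |prev α n * B| + |prev β n| + |-(α n / B)| + |-(β n / B ^ 2)| ≤
      K₀ * B + K₀ + K₀ / B + K₀ / B ^ 2 := by
  have h1 := prev_le hα n
  have h2 := prev_le hβ n
  have h3 := hα n
  have h4 := hβ n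
  have e1 : |prev α n * B| ≤ K₀ * B := by
    rw [abs_mul, abs_of_pos hB]
    gcongr
  have e2 : |-(α n / B)| ≤ K₀ / B := by
    rw [abs_neg, abs_div, abs_of_pos hB]
    gcongr
  have e3 : |-(β n / B ^ 2)| ≤ K₀ / B ^ 2 := by
    rw [abs_neg, abs_div, abs_of_pos (by positivity : 0 < B ^ 2)]
    gcongr
  linarith

theorem p2a : S_P2a := by
  intro α β B K₀ d hB hα hβ hd T X X' h h' b b' h0 n t ht
  have hBn : ∀ n, (0 : ℝ) < B ^ n := fun n => by positivity
  have hb : ∀ {X : ℕ → ℝ → ℝ}, (∃ K : ℝ, ∀ n, ∀ t ∈ Icc 0 T, B ^ n * |X n t| ≤ K) →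
      Bd T (fun n t => B ^ n * X n t) := by
    rintro X ⟨K, hK⟩
    refine ⟨K, fun n t ht => ?_⟩
    rw [abs_mul, abs_of_pos (hBn n)]
    exact hK n t ht
  have := IsS.unique (coef_le hB hα hβ) hd ((isSolS_iff hB X).mp h) ((isSolS_iff hB X').mp h')
    (hb b) (hb b') (fun n => by rw [h0 n]) n t ht
  exact mul_left_cancel₀ (hBn n).ne' this

theorem p2b : S_P2b := by
  intro α β B K₀ d hB hα hβ hd x hx
  have hBn : ∀ n, (0 : ℝ) < B ^ n := fun n => by positivity
  have hK00 : 0 ≤ K₀ := (abs_nonneg _).trans (hα 0)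
  obtain ⟨K₁, hK₁⟩ := hx B hB
  have hy : ∀ n, |B ^ n * x n| ≤ K₁ := by
    intro n
    rw [abs_mul, abs_of_pos (hBn n)]
    exact hK₁ n
  set Λ := K₀ * B + K₀ + K₀ / B + K₀ / B ^ 2 with hΛdef
  have hΛ := coef_le hB hα hβ
  have hΛ0 : 0 ≤ Λ := by positivity
  -- translation of the properties of a solution
  have htr : ∀ T, 0 ≤ T → ∀ Y, Sol (fun n => prev α n * B) (fun n => prev β n)
      (fun n => -(α n / B)) (fun n => -(β n / B ^ 2)) d
      (fun n => B ^ n * x n) T Y → IsSolS α β B d T (fun n t => Y n t / B ^ n) ∧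
        Rapid T (fun n t => Y n t / B ^ n) := by
    intro T hT Y hY
    have e : (fun (n : ℕ) (t : ℝ) => B ^ n * (Y n t / B ^ n)) = Y := by
      funext n t
      field_simp
    constructor
    · rw [isSolS_iff hB, e]
      exact hY.1
    · intro s hs
      obtain ⟨K, hK⟩ := hY.2.1
      obtain ⟨C, hC⟩ := hx s hs
      have hC0 : 0 ≤ C := (mul_nonneg (by positivity) (abs_nonneg _)).trans (hC 0)
      have hK0 : 0 ≤ K := (abs_nonneg _).trans (hK 0 0 ⟨le_rfl, hT⟩)
      have h0 : ∀ n, |Y n 0| ≤ C * (B / s) ^ n := by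
        intro n
        rw [hY.2.2 n, abs_mul, abs_of_pos (hBn n), div_pow, mul_div_assoc', le_div_iff₀ (by positivity)]
        have := mul_le_mul_of_nonneg_left (hC n) (hBn n).le
        linarith
      have h1 := hY.1.decay hΛ hd hK hC0 (div_pos hB hs) h0
      set κ := Λ * K * (1 / (B / s) + 1 + B / s)
      refine ⟨C * Real.exp (κ * T), fun n t ht => ?_⟩
      have h2 := h1 n t ht
      have hκ : 0 ≤ κ := by positivity
      have h3 : Real.exp (κ * t) ≤ Real.exp (κ * T) := by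
        apply Real.exp_le_exp.mpr
        exact mul_le_mul_of_nonneg_left ht.2 hκ
      rw [abs_div, abs_of_pos (hBn n)]
      calc s ^ n * (|Y n t| / B ^ n) ≤ s ^ n * (C * (B / s) ^ n * Real.exp (κ * T) / B ^ n) := by
            gcongr
            exact h2.trans (by gcongr)
        _ = C * Real.exp (κ * T) := by
            rw [div_pow]
            field_simp
  have h00 : ∀ n, B ^ n * x n / B ^ n = x n := fun n => by
    have := hBn n
    field_simp
  rcases dichotomy hΛ hd hy with ⟨Y, hY⟩ | ⟨T₀, hT₀, Y, hY, hunb⟩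
  · left
    refine ⟨fun n t => Y n t / B ^ n, fun n => ?_, fun T hT => htr T hT Y (hY T hT)⟩
    simp only
    rw [(hY 0 le_rfl).2.2 n, h00 n]
  · right
    refine ⟨T₀, hT₀, fun n t => Y n t / B ^ n, fun n => ?_, fun T hT hT' => htr T hT Y (hY T hT hT'),
      fun K => ?_⟩
    · simp only
      rw [(hY 0 le_rfl hT₀).2.2 n, h00 n]
    · obtain ⟨n, t, ht, h⟩ := hunb K
      refine ⟨n, t, ht, ?_⟩
      rw [abs_div, abs_of_pos (hBn n), mul_div_cancel₀ _ (hBn n).ne']
      exact h

end Pool.Agent.H42.Log2
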