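import Pool.Agent.H42.Log.Base

/-!
One stage of the lossless cascade, in rescaled variables.
-/

open Set Filter Topology

namespace Pool.Agent.H42.Log

open Pool.Agent.H42.Mix (RD mono_of_rd)

/-- the functions of a stage -/
structure Fn where
  (w p x a y z q Φ Ψ : ℝ → ℝ)
  (dw d0 d1 d2 d3 : ℝ)

/-- the parameters of a stage -/
structure Pm where
  (am α ap θ θp K L D β ℓ ω : ℝ)

/-- the numerical conditions -/
structure Nu (P : Pm) : Prop where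
  am0 : 0 ≤ P.am
  am1 : P.am ≤ 1 / 10 ^ 6
  α0 : 0 < P.α
  αθ : P.α ≤ P.θ
  θ1 : P.θ ≤ 1 / 10 ^ 6
  ap0 : 0 < P.ap
  apθ : P.ap ≤ P.θp
  θp1 : P.θp ≤ 1 / 10 ^ 6
  K10 : 10 ≤ P.K
  L : 2 * Real.log (1 / P.α) + P.K ≤ P.L
  D0 : 0 ≤ P.D
  DL : P.D * P.L ≤ 1 / 10 ^ 5
  θL : P.θ * P.L ≤ 1 / 10 ^ 6
  θpL : P.θp * P.L ≤ 1 / 10 ^ 6
  h6 : 2 * P.ap * Real.exp (32 * (P.K + 1)) ≤ P.θp
  ℓ0 : 0 ≤ P.ℓ
  hθ : 40 * P.θ * Real.exp (243 * P.ℓ) ≤ 1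
  hω : (Real.exp (-(3 * P.ℓ)) + 4 * P.am) * Real.exp (P.K / 16) ≤ P.ω
  ω1 : P.ω ^ 2 * P.K ≤ 1 / 10 ^ 5
  β1 : 95 / 100 ≤ P.β

/-- a stage -/
structure St (P : Pm) (F : Fn) : Prop where
  n : Nu P
  dw0 : 0 ≤ F.dw
  dwD : F.dw ≤ P.D
  d00 : 0 ≤ F.d0
  d0D : F.d0 ≤ P.D
  d10 : 0 ≤ F.d1
  d1D : F.d1 ≤ P.D
  d20 : 0 ≤ F.d2
  d2D : F.d2 ≤ P.D
  d30 : 0 ≤ F.d3
  cw : ContinuousOn F.w (Icc 0 P.L)
  cx : ContinuousOn F.x (Icc 0 P.L)
  ca : ContinuousOn F.a (Icc 0 P.L)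
  cy : ContinuousOn F.y (Icc 0 P.L)
  cz : ContinuousOn F.z (Icc 0 P.L)
  cΦ : ContinuousOn F.Φ (Icc 0 P.L)
  cΨ : ContinuousOn F.Ψ (Icc 0 P.L)
  dw : ∀ s ∈ Ico 0 P.L, RD F.w (1 / 32 * (F.p s * (P.am * F.p s + F.w s) - F.w s * F.x s)
    - F.dw * F.w s) s
  dx : ∀ s ∈ Ico 0 P.L, RD F.x (1 / 32 * F.w s ^ 2 - F.a s * (P.α * F.x s + F.a s)
    - F.d0 * F.x s) s
  da : ∀ s ∈ Ico 0 P.L, RD F.a (F.x s * (P.α * F.x s + F.a s) - F.a s * F.y s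
    - F.d1 * F.a s) s
  dy : ∀ s ∈ Ico 0 P.L, RD F.y (F.a s ^ 2 - 32 * F.z s * (P.ap * F.y s + F.z s)
    - F.d2 * F.y s) s
  dz : ∀ s ∈ Ico 0 P.L, RD F.z (32 * F.y s * (P.ap * F.y s + F.z s) - 32 * F.z s * F.q s
    - F.d3 * F.z s) s
  dΦ : ∀ s ∈ Ico 0 P.L, RD F.Φ (F.a s ^ 2) s
  dΨ : ∀ s ∈ Ico 0 P.L, RD F.Ψ (32 * F.z s ^ 2) s
  Φ0 : F.Φ 0 = 0
  Ψ0 : F.Ψ 0 = 0
  w0 : ∀ s ∈ Icc 0 P.L, 0 ≤ F.w s
  a0 : ∀ s ∈ Icc 0 P.L, 0 ≤ F.a s
  z0 : ∀ s ∈ Icc 0 P.L, 0 ≤ F.z s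
  en : ∀ s ∈ Icc 0 P.L, F.p s ^ 2 + F.w s ^ 2 + F.x s ^ 2 + F.a s ^ 2 + F.y s ^ 2 + F.z s ^ 2 ≤ 1
  yb : ∀ s ∈ Icc 0 P.L, |F.y s| ≤ P.θ / 32 + F.Φ s
  qb : ∀ s ∈ Icc 0 P.L, |F.q s| ≤ P.θ / 1024 + F.Ψ s
  xi : P.β ≤ F.x 0
  ai : F.a 0 ≤ P.θ
  zi : F.z 0 ≤ P.ap * P.θ

variable {P : Pm} {F : Fn}

lemma Nu.L10 (h : Nu P) : 10 ≤ P.L := by
  have h1 : 0 ≤ Real.log (1 / P.α) := by
    apply Real.log_nonneg
    rw [le_div_iff₀ h.α0]
    have := h.αθ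
    have := h.θ1
    norm_num at *
    linarith
  linarith [h.L, h.K10]

lemma Nu.D1 (h : Nu P) : P.D ≤ 1 / 10 ^ 6 := by
  have h1 := h.DL
  have h2 := h.L10
  have h3 := h.D0
  nlinarith

lemma St.x1 (h : St P F) {s : ℝ} (hs : s ∈ Icc 0 P.L) : |F.x s| ≤ 1 := by
  have := h.en s hs
  apply abs_le_of_sq_le_sq _ zero_le_one
  nlinarith [sq_nonneg (F.p s), sq_nonneg (F.w s), sq_nonneg (F.a s), sq_nonneg (F.y s),
    sq_nonneg (F.z s)]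

lemma St.y1 (h : St P F) {s : ℝ} (hs : s ∈ Icc 0 P.L) : |F.y s| ≤ 1 := by
  have := h.en s hs
  apply abs_le_of_sq_le_sq _ zero_le_one
  nlinarith [sq_nonneg (F.p s), sq_nonneg (F.w s), sq_nonneg (F.a s), sq_nonneg (F.x s),
    sq_nonneg (F.z s)]

lemma St.p1 (h : St P F) {s : ℝ} (hs : s ∈ Icc 0 P.L) : |F.p s| ≤ 1 := by
  have := h.en s hs
  apply abs_le_of_sq_le_sq _ zero_le_one
  nlinarith [sq_nonneg (F.x s), sq_nonneg (F.w s), sq_nonneg (F.a s), sq_nonneg (F.y s),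
    sq_nonneg (F.z s)]

lemma St.a1 (h : St P F) {s : ℝ} (hs : s ∈ Icc 0 P.L) : F.a s ≤ 1 := by
  have := h.en s hs
  have := h.a0 s hs
  nlinarith [sq_nonneg (F.x s), sq_nonneg (F.w s), sq_nonneg (F.p s), sq_nonneg (F.y s),
    sq_nonneg (F.z s)]

lemma St.w1 (h : St P F) {s : ℝ} (hs : s ∈ Icc 0 P.L) : F.w s ≤ 1 := by
  have := h.en s hs
  have := h.w0 s hs
  nlinarith [sq_nonneg (F.x s), sq_nonneg (F.a s), sq_nonneg (F.p s), sq_nonneg (F.y s),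
    sq_nonneg (F.z s)]

/-- the growth of `a` in the first phase -/
lemma St.a_grow (h : St P F) {c : ℝ} (hc : c ≤ P.L)
    (hb : ∀ s ∈ Icc 0 c, F.a s ≤ 1 / 20 ∧ 4 / 5 ≤ F.x s - F.y s) :
    ∀ s ∈ Icc 0 c, F.Φ s ≤ F.a s ^ 2 := by
  have hI : ∀ s ∈ Ico 0 c, s ∈ Ico 0 P.L := fun s hs => ⟨hs.1, hs.2.trans_le hc⟩
  have hJ : ∀ s ∈ Ico 0 c, s ∈ Icc 0 P.L := fun s hs => ⟨hs.1, hs.2.le.trans hc⟩
  have hsub : Icc 0 c ⊆ Icc 0 P.L := Icc_subset_Icc_right hc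
  intro s hs
  have h1 := mono_of_rd (f := fun s => F.a s ^ 2 - F.Φ s)
    (((h.ca.mono hsub).pow 2).sub (h.cΦ.mono hsub))
    (fun r hr => ((h.da r (hI r hr)).fun_pow 2).fun_sub (h.dΦ r (hI r hr)))
    (fun r hr => by
      have h1 := hb r ⟨hr.1, hr.2.le⟩
      have h2 := h.a0 r (hJ r hr)
      have h3 := h.n.D1
      have h4 := h.d1D
      have h5 := h.n.α0
      push_cast
      have h6 : 0 ≤ F.a r * (P.α * F.x r ^ 2) := by positivity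
      have h7 : 0 ≤ F.a r ^ 2 * (F.x r - F.y r - F.d1 - 1 / 2) := by
        apply mul_nonneg (sq_nonneg _)
        norm_num at h3
        linarith
      nlinarith) s hs
  simp only [h.Φ0] at h1
  nlinarith [sq_nonneg (F.a 0)]

lemma St.y_small (h : St P F) {c : ℝ} (hc : c ≤ P.L)
    (hb : ∀ s ∈ Icc 0 c, F.a s ≤ 1 / 20 ∧ 4 / 5 ≤ F.x s - F.y s) :
    ∀ s ∈ Icc 0 c, |F.y s| ≤ 3 / 1000 := by
  intro s hs
  have hs' : s ∈ Icc 0 P.L := ⟨hs.1, hs.2.trans hc⟩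
  have h1 := h.a_grow hc hb s hs
  have h2 := h.yb s hs'
  have h3 := h.a0 s hs'
  have h4 := (hb s hs).1
  have h5 := h.n.θ1
  have h6 : F.a s ^ 2 ≤ (1 / 20) ^ 2 := pow_le_pow_left₀ h3 h4 2
  norm_num at h5 h6
  linarith

lemma St.x_large (h : St P F) {c : ℝ} (hc : c ≤ P.L)
    (hb : ∀ s ∈ Icc 0 c, F.a s ≤ 1 / 20 ∧ 4 / 5 ≤ F.x s - F.y s) :
    ∀ s ∈ Icc 0 c, 94 / 100 ≤ F.x s := by
  have hI : ∀ s ∈ Ico 0 c, s ∈ Ico 0 P.L := fun s hs => ⟨hs.1, hs.2.trans_le hc⟩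
  have hJ : ∀ s ∈ Ico 0 c, s ∈ Icc 0 P.L := fun s hs => ⟨hs.1, hs.2.le.trans hc⟩
  have hsub : Icc 0 c ⊆ Icc 0 P.L := Icc_subset_Icc_right hc
  intro s hs
  have hs' : s ∈ Icc 0 P.L := ⟨hs.1, hs.2.trans hc⟩
  have h1 := low_of_rd (f := fun s => F.x s + F.Φ s) (c := P.θ + P.D)
    ((h.cx.mono hsub).add (h.cΦ.mono hsub))
    (fun r hr => (h.dx r (hI r hr)).fun_add (h.dΦ r (hI r hr)))
    (fun r hr => by
      have h1 := hb r ⟨hr.1, hr.2.le⟩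
      have h2 := h.a0 r (hJ r hr)
      have h3 := h.x1 (hJ r hr)
      have h4 := h.d0D
      have h5 := h.n.α0
      have h6 := h.n.αθ
      have h7 := h.d00
      have h8 := abs_le.1 h3
      have h9 : F.a r * (P.α * F.x r) ≤ P.θ := by
        have : F.a r * (P.α * F.x r) ≤ 1 * (P.α * 1) := by
          apply mul_le_mul (by linarith) (mul_le_mul_of_nonneg_left h8.2 h5.le) _ zero_le_one
          have : 0 ≤ F.x r := by
            have := abs_le.1 (h.y_small hc hb r ⟨hr.1, hr.2.le⟩)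
            linarith
          positivity
        linarith
      have h10 : F.d0 * F.x r ≤ P.D := by
        have : F.d0 * F.x r ≤ F.d0 * 1 := mul_le_mul_of_nonneg_left h8.2 h7
        linarith
      nlinarith [sq_nonneg (F.w r)]) s hs
  simp only [h.Φ0, sub_zero, add_zero] at h1
  have h2 := h.a_grow hc hb s hs
  have h3 := h.a0 s hs'
  have h4 := (hb s hs).1
  have h6 : F.a s ^ 2 ≤ (1 / 20) ^ 2 := pow_le_pow_left₀ h3 h4 2
  have h7 := h.xi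
  have h8 := h.n.β1
  have h9 : (P.θ + P.D) * s ≤ P.θ * P.L + P.D * P.L := by
    have : 0 ≤ P.θ + P.D := by linarith [h.n.D0, h.n.α0, h.n.αθ]
    nlinarith [hs'.2]
  have h10 := h.n.θL
  have h11 := h.n.DL
  norm_num at h6 h10 h11
  linarith

lemma St.a_exp (h : St P F) {c : ℝ} (hc : c ≤ P.L)
    (hb : ∀ s ∈ Icc 0 c, F.a s ≤ 1 / 20 ∧ 4 / 5 ≤ F.x s - F.y s) :
    ∀ s ∈ Icc 0 c, P.α * Real.exp (1 / 2 * s) ≤ F.a s + P.α := by
  have hI : ∀ s ∈ Ico 0 c, s ∈ Ico 0 P.L := fun s hs => ⟨hs.1, hs.2.trans_le hc⟩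
  have hJ : ∀ s ∈ Ico 0 c, s ∈ Icc 0 P.L := fun s hs => ⟨hs.1, hs.2.le.trans hc⟩
  have hsub : Icc 0 c ⊆ Icc 0 P.L := Icc_subset_Icc_right hc
  intro s hs
  have h1 := gron_ge_const (u := fun s => F.a s + P.α) (k := 1 / 2) (a := 0) (b := c)
    ((h.ca.mono hsub).add continuousOn_const)
    (fun r hr => (h.da r (hI r hr)).add_const P.α)
    (fun r hr => by
      have hr' : r ∈ Icc 0 c := ⟨hr.1, hr.2.le⟩
      have h1 := hb r hr'
      have h2 := h.a0 r (hJ r hr)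
      have h3 := h.n.D1
      have h4 := h.d1D
      have h5 := h.n.α0
      have h6 := h.x_large hc hb r hr'
      have h7 : 0 ≤ F.a r * (F.x r - F.y r - F.d1 - 1 / 2) := by
        apply mul_nonneg h2
        norm_num at h3
        linarith
      have h8 : 0 ≤ P.α * (F.x r ^ 2 - 1 / 2) := by
        apply mul_nonneg h5.le
        nlinarith
      nlinarith) s hs
  have h2 : 0 ≤ F.a 0 := h.a0 0 ⟨le_rfl, by linarith [h.n.L10]⟩
  have h3 := Real.exp_pos (1 / 2 * (s - 0))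
  simp only [sub_zero] at h1 h3
  nlinarith

lemma St.a_up (h : St P F) {c : ℝ} (hc : c ≤ P.L)
    (hb : ∀ s ∈ Icc 0 c, F.a s ≤ 1 / 20 ∧ 4 / 5 ≤ F.x s - F.y s) :
    ∀ s ∈ Icc 0 c, F.a s ≤ 2 * P.θ * Real.exp (101 / 100 * s) := by
  have hI : ∀ s ∈ Ico 0 c, s ∈ Ico 0 P.L := fun s hs => ⟨hs.1, hs.2.trans_le hc⟩
  have hJ : ∀ s ∈ Ico 0 c, s ∈ Icc 0 P.L := fun s hs => ⟨hs.1, hs.2.le.trans hc⟩
  have hsub : Icc 0 c ⊆ Icc 0 P.L := Icc_subset_Icc_right hc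
  intro s hs
  have h1 := gron_le_const (u := fun s => F.a s + P.α) (k := 101 / 100) (a := 0) (b := c)
    ((h.ca.mono hsub).add continuousOn_const)
    (fun r hr => (h.da r (hI r hr)).add_const P.α)
    (fun r hr => by
      have hr' : r ∈ Icc 0 c := ⟨hr.1, hr.2.le⟩
      have h2 := h.a0 r (hJ r hr)
      have h4 := h.d10
      have h5 := h.n.α0
      have h6 := abs_le.1 (h.x1 (hJ r hr))
      have h7 := abs_le.1 (h.y_small hc hb r hr')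
      have h8 : 0 ≤ F.a r * (101 / 100 - (F.x r - F.y r)) := by
        apply mul_nonneg h2
        linarith
      have h9 : 0 ≤ P.α * (1 - F.x r ^ 2) := by
        apply mul_nonneg h5.le
        nlinarith
      nlinarith [mul_nonneg h4 h2]) s hs
  have h2 : F.a 0 ≤ P.θ := h.ai
  have h3 := Real.exp_pos (101 / 100 * (s - 0))
  have h5 := h.n.α0
  have h6 := h.n.αθ
  simp only [sub_zero] at h1 h3
  nlinarith

/-- the end of the first phase -/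
lemma St.t1 (h : St P F) : ∃ t1 ∈ Ioc 0 (P.L - P.K), F.a t1 = 1 / 20 ∧
    ∀ s ∈ Icc 0 t1, F.a s ≤ 1 / 20 ∧ 4 / 5 ≤ F.x s - F.y s := by
  have hL := h.n.L
  have hK := h.n.K10
  have hL0 : 0 ≤ Real.log (1 / P.α) := by
    apply Real.log_nonneg
    rw [le_div_iff₀ h.n.α0]
    have := h.n.αθ
    have := h.n.θ1
    norm_num at *
    linarith
  have h00 : (0 : ℝ) ∈ Icc 0 P.L := ⟨le_rfl, by linarith [h.n.L10]⟩
  have hyb0 : |F.y 0| ≤ 1 / 10 ^ 6 := by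
    have := h.yb 0 h00
    rw [h.Φ0] at this
    have := h.n.θ1
    have := h.n.α0
    have := h.n.αθ
    linarith
  have hsub : Icc 0 (P.L - P.K) ⊆ Icc 0 P.L := Icc_subset_Icc_right (by linarith)
  let f : ℝ → ℝ := fun s => max (F.a s - 1 / 20) (4 / 5 - (F.x s - F.y s))
  have hf : ContinuousOn f (Icc 0 (P.L - P.K)) :=
    ((h.ca.mono hsub).sub continuousOn_const).sup
      (continuousOn_const.sub ((h.cx.mono hsub).sub (h.cy.mono hsub)))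
  have hf0 : f 0 < 0 := by
    simp only [f]
    have h1 := h.ai
    have h2 := h.n.θ1
    have h3 := h.xi
    have h4 := h.n.β1
    have h5 := abs_le.1 hyb0
    norm_num at h2 h5
    apply max_lt <;> linarith
  have hex : ∃ t ∈ Icc 0 (P.L - P.K), 0 ≤ f t := by
    by_contra hc
    push Not at hc
    have hb : ∀ s ∈ Icc 0 (P.L - P.K), F.a s ≤ 1 / 20 ∧ 4 / 5 ≤ F.x s - F.y s := by
      intro s hs
      have := hc s hs
      simp only [f, max_lt_iff] at this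
      constructor <;> linarith [this.1, this.2]
    have h1 := h.a_exp (by linarith) hb (P.L - P.K) ⟨by linarith, le_rfl⟩
    have h2 := (hb (P.L - P.K) ⟨by linarith, le_rfl⟩).1
    have h3 : 1 ≤ P.α * Real.exp (1 / 2 * (P.L - P.K)) := by
      have h4 : 1 / P.α ≤ Real.exp (1 / 2 * (P.L - P.K)) := by
        rw [← Real.log_le_iff_le_exp (by have := h.n.α0; positivity)]
        linarith
      have h5 := mul_le_mul_of_nonneg_left h4 h.n.α0.le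
      have h6 : P.α * (1 / P.α) = 1 := by have := h.n.α0; field_simp
      linarith
    have h4 := h.n.αθ
    have h5 := h.n.θ1
    norm_num at h5
    linarith
  obtain ⟨t, ht, ht0, htl⟩ := first_exit hf hf0 hex
  have hb : ∀ s ∈ Icc 0 t, F.a s ≤ 1 / 20 ∧ 4 / 5 ≤ F.x s - F.y s := by
    intro s hs
    have : f s ≤ 0 := by
      rcases eq_or_lt_of_le hs.2 with h1 | h1
      · rw [h1, ht0]
      · exact (htl s ⟨hs.1, h1⟩).le
    simp only [f, max_le_iff] at this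
    constructor <;> linarith [this.1, this.2]
  refine ⟨t, ht, ?_, hb⟩
  have h1 := h.x_large (by linarith [ht.2]) hb t ⟨ht.1.le, le_rfl⟩
  have h2 := abs_le.1 (h.y_small (by linarith [ht.2]) hb t ⟨ht.1.le, le_rfl⟩)
  have h3 : 4 / 5 - (F.x t - F.y t) < 0 := by linarith
  simp only [f] at ht0
  rcases max_choice (F.a t - 1 / 20) (4 / 5 - (F.x t - F.y t)) with h4 | h4
  · rw [h4] at ht0; linarith
  · rw [h4] at ht0; linarith

end Pool.Agent.H42.Log
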