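import Pool.Agent.H42.Log.Stage

/-!
One stage of the lossless cascade: the neighbouring shells and the invariants.
-/

open Set Filter Topology

namespace Pool.Agent.H42.Log

open Pool.Agent.H42.Mix (RD mono_of_rd)

variable {P : Pm} {F : Fn}

/-- `t1` is the end of the first phase -/
structure St1 (P : Pm) (F : Fn) (t1 : ℝ) : Prop extends St P F where
  t0 : 0 < t1
  tK : t1 + P.K ≤ P.L
  at1 : F.a t1 = 1 / 20
  hb : ∀ s ∈ Icc 0 t1, F.a s ≤ 1 / 20 ∧ 4 / 5 ≤ F.x s - F.y s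

variable {t1 : ℝ}

lemma St1.tL (h : St1 P F t1) : t1 ≤ P.L := by
  have := h.tK
  have := h.n.K10
  linarith

/-- the length of the first phase -/
lemma St1.long (h : St1 P F t1) : 240 * P.ℓ ≤ t1 := by
  have h1 := h.a_up h.tL h.hb t1 ⟨h.t0.le, le_rfl⟩
  rw [h.at1] at h1
  have h2 := h.n.hθ
  have h3 : 0 < P.θ := h.n.α0.trans_le h.n.αθ
  have h4 : P.θ * Real.exp (243 * P.ℓ) ≤ P.θ * Real.exp (101 / 100 * t1) := by linarith
  have h5 : Real.exp (243 * P.ℓ) ≤ Real.exp (101 / 100 * t1) := le_of_mul_le_mul_left h4 h3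
  have h6 := Real.exp_le_exp.1 h5
  have := h.n.ℓ0
  linarith

lemma St1.w_decay (h : St1 P F t1) :
    ∀ s ∈ Icc 0 t1, F.w s ≤ 3 * P.am + Real.exp (-(1 / 80 * s)) := by
  have hc := h.tL
  have hI : ∀ s ∈ Ico 0 t1, s ∈ Ico 0 P.L := fun s hs => ⟨hs.1, hs.2.trans_le hc⟩
  have hJ : ∀ s ∈ Ico 0 t1, s ∈ Icc 0 P.L := fun s hs => ⟨hs.1, hs.2.le.trans hc⟩
  have hsub : Icc 0 t1 ⊆ Icc 0 P.L := Icc_subset_Icc_right hc
  intro s hs
  have h1 := gron_le_const (u := fun s => F.w s - 3 * P.am) (k := -(1 / 80)) (a := 0) (b := t1)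
    ((h.cw.mono hsub).sub continuousOn_const)
    (fun r hr => (h.dw r (hI r hr)).sub_const (3 * P.am))
    (fun r hr => by
      have hr' : r ∈ Icc 0 t1 := ⟨hr.1, hr.2.le⟩
      have h2 := h.w0 r (hJ r hr)
      have h3 := h.dw0
      have h4 := h.n.am0
      have h5 := h.x_large hc h.hb r hr'
      have h6 := h.en r (hJ r hr)
      have h7 : F.p r ≤ 35 / 100 := by
        by_contra hcon
        push Not at hcon
        nlinarith [sq_nonneg (F.w r), sq_nonneg (F.a r), sq_nonneg (F.y r), sq_nonneg (F.z r)]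
      have h8 : 0 ≤ F.w r * (F.x r - F.p r - 4 / 10) := by
        apply mul_nonneg h2; linarith
      have h9 : 0 ≤ P.am * (1 - F.p r ^ 2) := by
        apply mul_nonneg h4
        nlinarith [sq_nonneg (F.w r), sq_nonneg (F.a r), sq_nonneg (F.y r), sq_nonneg (F.z r),
          sq_nonneg (F.x r)]
      nlinarith [mul_nonneg h3 h2]) s hs
  have h2 : F.w 0 ≤ 1 := h.toSt.w1 ⟨le_rfl, by linarith [h.n.L10]⟩
  have h3 := Real.exp_pos (-(1 / 80) * (s - 0))
  have h4 := h.n.am0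
  have h5 : (F.w 0 - 3 * P.am) * Real.exp (-(1 / 80) * (s - 0)) ≤
      1 * Real.exp (-(1 / 80) * (s - 0)) := by
    apply mul_le_mul_of_nonneg_right _ h3.le
    linarith
  have h6 : Real.exp (-(1 / 80) * (s - 0)) = Real.exp (-(1 / 80 * s)) := by ring_nf
  rw [h6] at h5 h1
  linarith

lemma St1.w_t1 (h : St1 P F t1) : F.w t1 ≤ 3 * P.am + Real.exp (-(3 * P.ℓ)) := by
  have h1 := h.w_decay t1 ⟨h.t0.le, le_rfl⟩
  have h2 := h.long
  have h3 : Real.exp (-(1 / 80 * t1)) ≤ Real.exp (-(3 * P.ℓ)) := by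
    apply Real.exp_le_exp.2
    linarith
  linarith

/-- `w` in the second phase -/
lemma St1.w_small (h : St1 P F t1) : ∀ s ∈ Icc t1 (t1 + P.K), F.w s ≤ P.ω := by
  have hc := h.tK
  have hK := h.n.K10
  have hI : ∀ s ∈ Ico t1 (t1 + P.K), s ∈ Ico 0 P.L :=
    fun s hs => ⟨h.t0.le.trans hs.1, hs.2.trans_le hc⟩
  have hJ : ∀ s ∈ Ico t1 (t1 + P.K), s ∈ Icc 0 P.L :=
    fun s hs => ⟨h.t0.le.trans hs.1, hs.2.le.trans hc⟩
  have hsub : Icc t1 (t1 + P.K) ⊆ Icc 0 P.L := Icc_subset_Icc h.t0.le hc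
  intro s hs
  have h1 := gron_le_const (u := fun s => F.w s + P.am) (k := 1 / 16) (a := t1) (b := t1 + P.K)
    ((h.cw.mono hsub).add continuousOn_const)
    (fun r hr => (h.dw r (hI r hr)).add_const (P.am))
    (fun r hr => by
      have h2 := h.w0 r (hJ r hr)
      have h3 := h.dw0
      have h4 := h.n.am0
      have h5 := abs_le.1 (h.toSt.x1 (hJ r hr))
      have h6 := abs_le.1 (h.toSt.p1 (hJ r hr))
      have h8 : 0 ≤ F.w r * (2 - (F.p r - F.x r)) := by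
        apply mul_nonneg h2; linarith
      have h9 : 0 ≤ P.am * (1 - F.p r ^ 2) := by
        apply mul_nonneg h4
        nlinarith
      nlinarith [mul_nonneg h3 h2]) s hs
  have h2 := h.w_t1
  have h4 := h.n.am0
  have h5 : Real.exp (1 / 16 * (s - t1)) ≤ Real.exp (P.K / 16) := by
    apply Real.exp_le_exp.2
    linarith [hs.2]
  have h6 : (F.w t1 + P.am) * Real.exp (1 / 16 * (s - t1)) ≤
      (Real.exp (-(3 * P.ℓ)) + 4 * P.am) * Real.exp (P.K / 16) := by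
    apply mul_le_mul (by linarith) h5 (Real.exp_pos _).le
    positivity
  linarith [h.n.hω]

/-- the shell after the target stays small -/
lemma St1.z_small (h : St1 P F t1) : ∀ s ∈ Icc 0 (t1 + P.K), F.z s ≤ P.θp := by
  have hK := h.n.K10
  have hap := h.n.ap0
  have hθ : 0 < P.θ := h.n.α0.trans_le h.n.αθ
  have hθp : 0 < P.θp := hap.trans_le h.n.apθ
  have hL := h.n.L10
  have hz0 : F.z 0 ≤ P.ap := by
    have h1 := h.zi
    have h2 := h.n.θ1
    have : P.ap * P.θ ≤ P.ap * 1 := mul_le_mul_of_nonneg_left (by norm_num at h2; linarith) hap.le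
    linarith
  by_contra hcon
  push Not at hcon
  obtain ⟨s0, hs0, hs0'⟩ := hcon
  have hsub : Icc 0 (t1 + P.K) ⊆ Icc 0 P.L := Icc_subset_Icc_right h.tK
  have h60 := h.n.h6
  have he1 : 1 ≤ Real.exp (32 * (P.K + 1)) := Real.one_le_exp (by linarith)
  have hz0' : F.z 0 < P.θp := by nlinarith
  obtain ⟨τ, hτ, hτz, hτl⟩ := first_exit (h.cz.mono hsub) hz0' ⟨s0, hs0, hs0'.le⟩
  have hτL : τ ≤ P.L := hτ.2.trans h.tK
  have hI : ∀ s ∈ Ico 0 τ, s ∈ Ico 0 P.L := fun s hs => ⟨hs.1, hs.2.trans_le hτL⟩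
  have hJ : ∀ s ∈ Ico 0 τ, s ∈ Icc 0 P.L := fun s hs => ⟨hs.1, hs.2.le.trans hτL⟩
  have hsubτ : Icc 0 τ ⊆ Icc 0 P.L := Icc_subset_Icc_right hτL
  set κ := 1 / 10 ^ 3 * P.θ + 1 / 10 ^ 3 * P.θp with hκ
  have hκ0 : 0 ≤ κ := by positivity
  have hκL : κ * P.L ≤ 1 / 10 ^ 6 := by
    have h1 := h.n.θL
    have h2 := h.n.θpL
    have : κ * P.L = 1 / 10 ^ 3 * (P.θ * P.L) + 1 / 10 ^ 3 * (P.θp * P.L) := by rw [hκ]; ring
    rw [this]
    norm_num at h1 h2 ⊢
    linarith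
  -- the bound for q
  have hq : ∀ s ∈ Ico 0 τ, |F.q s| ≤ κ := by
    intro s hs
    have h1 := up_of_rd (f := F.Ψ) (c := 32 * P.θp ^ 2) (h.cΨ.mono hsubτ)
      (fun r hr => h.dΨ r (hI r hr))
      (fun r hr => by
        have h1 := hτl r hr
        have h2 := h.z0 r (hJ r hr)
        nlinarith) s ⟨hs.1, hs.2.le⟩
    rw [h.Ψ0] at h1
    have h2 := h.qb s (hJ s hs)
    have h3 : 32 * P.θp ^ 2 * (s - 0) ≤ 32 * P.θp * (P.θp * P.L) := by
      have : s - 0 ≤ P.L := by linarith [(hJ s hs).2]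
      nlinarith [mul_le_mul_of_nonneg_left this (by positivity : 0 ≤ 32 * P.θp ^ 2)]
    have h4 : 32 * P.θp * (P.θp * P.L) ≤ 32 * P.θp * (1 / 10 ^ 6) :=
      mul_le_mul_of_nonneg_left h.n.θpL (by positivity)
    rw [hκ]
    norm_num at h4 ⊢
    linarith
  -- the differential inequality
  have hd : ∀ r ∈ Ico 0 τ, ∀ A : ℝ, |F.y r| ≤ A →
      32 * F.y r * (P.ap * F.y r + F.z r) - 32 * F.z r * F.q r - F.d3 * F.z r ≤
        (32 * (A + κ)) * (F.z r + P.ap) := by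
    intro r hr A hA
    have h1 := h.z0 r (hJ r hr)
    have h2 := hq r hr
    have h3 := h.toSt.y1 (hJ r hr)
    have h4 : F.y r ^ 2 ≤ A := by
      have : F.y r ^ 2 = |F.y r| * |F.y r| := by rw [← pow_two, sq_abs]
      rw [this]
      nlinarith [abs_nonneg (F.y r)]
    have h5 : F.y r ≤ A := (le_abs_self _).trans hA
    have h6 : -F.q r ≤ κ := (neg_le_abs _).trans h2
    have h7 := mul_nonneg h.d30 h1
    have h8 : P.ap * F.y r ^ 2 ≤ P.ap * A := mul_le_mul_of_nonneg_left h4 hap.le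
    have h9 : F.y r * F.z r ≤ A * F.z r := mul_le_mul_of_nonneg_right h5 h1
    have h10 : -F.q r * F.z r ≤ κ * F.z r := mul_le_mul_of_nonneg_right h6 h1
    nlinarith [mul_nonneg hκ0 hap.le]
  set m := min τ t1 with hm
  have hm0 : 0 ≤ m := le_min hτ.1.le h.t0.le
  have hmτ : m ≤ τ := min_le_left _ _
  have hmt : m ≤ t1 := min_le_right _ _
  -- first interval
  have hA : ∀ s ∈ Icc 0 m, F.Φ s ≤ F.a s ^ 2 := fun s hs =>
    h.a_grow h.tL h.hb s ⟨hs.1, hs.2.trans hmt⟩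
  have h1 := gron_le (u := fun s => F.z s + P.ap)
    (g := fun s => 32 * (P.θ * s + F.Φ s + κ * s))
    (g' := fun s => 32 * (P.θ + F.a s ^ 2 + κ)) (a := 0) (b := m)
    ((h.cz.mono (Icc_subset_Icc_right (hmτ.trans hτL))).add continuousOn_const)
    (by
      have : ContinuousOn F.Φ (Icc 0 m) := h.cΦ.mono (Icc_subset_Icc_right (hmτ.trans hτL))
      fun_prop)
    (fun r hr => (h.dz r (hI r ⟨hr.1, hr.2.trans_le hmτ⟩)).add_const P.ap)
    (fun r hr => by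
      have e1 := h.dΦ r (hI r ⟨hr.1, hr.2.trans_le hmτ⟩)
      exact (((rd_lin0 P.θ r).fun_add e1).fun_add (rd_lin0 κ r)).const_mul 32)
    (fun r hr => by
      have hr' : r ∈ Ico 0 τ := ⟨hr.1, hr.2.trans_le hmτ⟩
      have e1 := h.yb r (hJ r hr')
      have e2 := hA r ⟨hr.1, hr.2.le⟩
      exact hd r hr' (P.θ + F.a r ^ 2) (by linarith)) m ⟨hm0, le_rfl⟩
  -- second interval
  have h2 := gron_le_const (u := fun s => F.z s + P.ap) (k := 32 * (1 + κ)) (a := m) (b := τ)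
    ((h.cz.mono (Icc_subset_Icc hm0 hτL)).add continuousOn_const)
    (fun r hr => (h.dz r (hI r ⟨hm0.trans hr.1, hr.2⟩)).add_const P.ap)
    (fun r hr => by
      have hr' : r ∈ Ico 0 τ := ⟨hm0.trans hr.1, hr.2⟩
      exact hd r hr' 1 (h.toSt.y1 (hJ r hr'))) τ ⟨hmτ, le_rfl⟩
  have h3 : τ - m ≤ P.K := by
    rcases le_total τ t1 with h4 | h4
    · have : m = τ := min_eq_left h4
      rw [this]; linarith
    · have : m = t1 := min_eq_right h4
      rw [this]; linarith [hτ.2]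
  have h4 : F.Φ m ≤ 1 / 400 := by
    have e1 := hA m ⟨hm0, le_rfl⟩
    have e2 := (h.hb m ⟨hm0, hmt⟩).1
    have e3 := h.a0 m ⟨hm0, hmτ.trans hτL⟩
    nlinarith
  have h5 : 32 * (P.θ * m + F.Φ m + κ * m) - 32 * (P.θ * 0 + F.Φ 0 + κ * 0) +
      32 * (1 + κ) * (τ - m) ≤ 32 * (P.K + 1) := by
    rw [h.Φ0]
    have e1 : P.θ * m ≤ 1 / 10 ^ 6 := by
      have : P.θ * m ≤ P.θ * P.L := mul_le_mul_of_nonneg_left (hmτ.trans hτL) hθ.le
      linarith [h.n.θL]
    have e2 : κ * τ ≤ 1 / 10 ^ 6 := by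
      have : κ * τ ≤ κ * P.L := mul_le_mul_of_nonneg_left hτL hκ0
      linarith
    norm_num at e1 e2
    nlinarith
  have h6 : F.z τ + P.ap ≤ (F.z 0 + P.ap) * Real.exp (32 * (P.K + 1)) := by
    refine h2.trans ?_
    have e1 := mul_le_mul_of_nonneg_right h1 (Real.exp_pos (32 * (1 + κ) * (τ - m))).le
    refine e1.trans ?_
    rw [mul_assoc, ← Real.exp_add]
    apply mul_le_mul_of_nonneg_left (Real.exp_le_exp.2 h5)
    have := h.z0 0 ⟨le_rfl, by linarith⟩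
    linarith
  have h7 : (F.z 0 + P.ap) * Real.exp (32 * (P.K + 1)) ≤ P.θp := by
    refine le_trans ?_ h60
    apply mul_le_mul_of_nonneg_right _ (Real.exp_pos _).le
    linarith
  rw [hτz] at h6
  linarith

end Pool.Agent.H42.Log
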