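import Pool.Agent.H42.Log.Stage2

/-!
One stage of the lossless cascade: the transfer.
-/

open Set Filter Topology

namespace Pool.Agent.H42.Log

open Pool.Agent.H42.Mix (RD mono_of_rd)

variable {P : Pm} {F : Fn} {t1 : ℝ}

/-- the first invariant of the triad -/
def J (F : Fn) (s : ℝ) : ℝ := F.a s ^ 2 - 2 * F.x s * F.y s

/-- its derivative -/
noncomputable def J' (P : Pm) (F : Fn) (s : ℝ) : ℝ :=
  2 * P.α * F.a s * F.x s ^ 2 + 2 * P.α * F.a s * F.x s * F.y s - 2 * F.d1 * F.a s ^ 2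
    - 1 / 16 * F.y s * F.w s ^ 2 + 2 * (F.d0 + F.d2) * F.x s * F.y s
    + 64 * F.x s * F.z s * (P.ap * F.y s + F.z s)

lemma St.dJ (h : St P F) {s : ℝ} (hs : s ∈ Ico 0 P.L) : RD (J F) (J' P F s) s := by
  have h1 := ((h.da s hs).fun_pow 2).fun_sub (((h.dx s hs).const_mul 2).fun_mul (h.dy s hs))
  refine h1.congr_deriv ?_
  simp only [J']
  push_cast
  ring

lemma St.cJ (h : St P F) : ContinuousOn (J F) (Icc 0 P.L) :=
  (h.ca.pow 2).sub ((continuousOn_const.mul h.cx).mul h.cy)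

/-- the lower bound for the derivative of `J` -/
lemma St1.J'_low (h : St1 P F t1) {s W : ℝ} (hs : s ∈ Icc 0 (t1 + P.K)) (_hW : 0 ≤ W)
    (h1 : F.w s ^ 2 * |F.y s| ≤ W) :
    -(2 * P.α + 6 * P.D + 1 / 16 * W + 128 * P.θp ^ 2) ≤ J' P F s := by
  have hs' : s ∈ Icc 0 P.L := ⟨hs.1, hs.2.trans h.tK⟩
  have hα := h.n.α0
  have hD := h.n.D0
  have ha0 := h.a0 s hs'
  have ha1 := h.toSt.a1 hs'
  have hx := h.toSt.x1 hs'
  have hy := h.toSt.y1 hs'
  have hxy : |F.x s * F.y s| ≤ 1 := by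
    rw [abs_mul]
    nlinarith [abs_nonneg (F.x s), abs_nonneg (F.y s)]
  have hz0 := h.z0 s hs'
  have hz1 := h.z_small s hs
  have hap := h.n.ap0
  have hapθ := h.n.apθ
  -- terms
  have e1 : 0 ≤ 2 * P.α * F.a s * F.x s ^ 2 := by positivity
  have e2 : -(2 * P.α) ≤ 2 * P.α * F.a s * F.x s * F.y s := by
    have : |2 * P.α * F.a s * F.x s * F.y s| ≤ 2 * P.α := by
      rw [show 2 * P.α * F.a s * F.x s * F.y s = (2 * P.α * F.a s) * (F.x s * F.y s) by ring,
        abs_mul, abs_of_nonneg (by positivity : 0 ≤ 2 * P.α * F.a s)]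
      have h3 : 2 * P.α * F.a s ≤ 2 * P.α := by nlinarith
      have h4 : 0 ≤ 2 * P.α * F.a s := by positivity
      nlinarith [abs_nonneg (F.x s * F.y s)]
    linarith [(abs_le.1 this).1]
  have e3 : -(2 * P.D) ≤ -(2 * F.d1 * F.a s ^ 2) := by
    have h3 : F.a s ^ 2 ≤ 1 := by nlinarith
    have h4 := h.d10
    have h5 := h.d1D
    nlinarith [mul_nonneg h4 (sub_nonneg.2 h3)]
  have e4 : -(1 / 16 * W) ≤ -(1 / 16 * F.y s * F.w s ^ 2) := by
    have h3 : F.y s * F.w s ^ 2 ≤ W := by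
      refine le_trans ?_ h1
      nlinarith [mul_le_mul_of_nonneg_left (le_abs_self (F.y s)) (sq_nonneg (F.w s))]
    linarith
  have e5 : -(4 * P.D) ≤ 2 * (F.d0 + F.d2) * F.x s * F.y s := by
    have : |2 * (F.d0 + F.d2) * F.x s * F.y s| ≤ 4 * P.D := by
      rw [show 2 * (F.d0 + F.d2) * F.x s * F.y s = (2 * (F.d0 + F.d2)) * (F.x s * F.y s) by ring,
        abs_mul, abs_of_nonneg (by linarith [h.d00, h.d20] : 0 ≤ 2 * (F.d0 + F.d2))]
      have h3 : 2 * (F.d0 + F.d2) ≤ 4 * P.D := by linarith [h.d0D, h.d2D]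
      have h4 : 0 ≤ 2 * (F.d0 + F.d2) := by linarith [h.d00, h.d20]
      nlinarith [abs_nonneg (F.x s * F.y s)]
    linarith [(abs_le.1 this).1]
  have e6 : -(128 * P.θp ^ 2) ≤ 64 * F.x s * F.z s * (P.ap * F.y s + F.z s) := by
    have h3 : |P.ap * F.y s + F.z s| ≤ 2 * P.θp := by
      refine (abs_add_le _ _).trans ?_
      rw [abs_mul, abs_of_pos hap, abs_of_nonneg hz0]
      nlinarith [abs_nonneg (F.y s)]
    have h4 : |F.x s * F.z s| ≤ P.θp := by
      rw [abs_mul, abs_of_nonneg hz0]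
      nlinarith [abs_nonneg (F.x s)]
    have h5 : |64 * F.x s * F.z s * (P.ap * F.y s + F.z s)| ≤ 128 * P.θp ^ 2 := by
      rw [show 64 * F.x s * F.z s * (P.ap * F.y s + F.z s) =
        64 * ((F.x s * F.z s) * (P.ap * F.y s + F.z s)) by ring, abs_mul, abs_mul,
        abs_of_pos (by norm_num : (0 : ℝ) < 64)]
      have h6 : |F.x s * F.z s| * |P.ap * F.y s + F.z s| ≤ P.θp * (2 * P.θp) :=
        mul_le_mul h4 h3 (abs_nonneg _) ((abs_nonneg _).trans h4)
      nlinarith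
    linarith [(abs_le.1 h5).1]
  simp only [J']
  linarith

/-- the constant in the estimate of `J` -/
noncomputable def cJ (P : Pm) : ℝ :=
  2 * P.α + 6 * P.D + P.θ + P.ω ^ 2 + 128 * P.θp ^ 2

noncomputable def eJ (P : Pm) : ℝ := P.θ + cJ P * P.L + P.ω ^ 2

lemma Nu.ω0 (h : Nu P) : 0 ≤ P.ω := by
  refine le_trans ?_ h.hω
  have := h.am0
  have := Real.exp_pos (-(3 * P.ℓ))
  have := Real.exp_pos (P.K / 16)
  positivity

lemma Nu.cJ0 (h : Nu P) : 0 < cJ P := by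
  have := h.α0
  have := h.D0
  have := h.αθ
  have h1 : 0 ≤ P.ω ^ 2 := sq_nonneg _
  have h2 : 0 ≤ 128 * P.θp ^ 2 := by positivity
  simp only [cJ]
  linarith

/-- `J` at the end of the first phase -/
lemma St1.J_t1 (h : St1 P F t1) : -(P.θ + cJ P * t1 + P.ω ^ 2) ≤ J F t1 := by
  have hc := h.tL
  have hI : ∀ s ∈ Ico 0 t1, s ∈ Ico 0 P.L := fun s hs => ⟨hs.1, hs.2.trans_le hc⟩
  have hJ : ∀ s ∈ Ico 0 t1, s ∈ Icc 0 P.L := fun s hs => ⟨hs.1, hs.2.le.trans hc⟩
  have hsub : Icc 0 t1 ⊆ Icc 0 P.L := Icc_subset_Icc_right hc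
  have hθ : 0 < P.θ := h.n.α0.trans_le h.n.αθ
  have hω : 0 ≤ P.ω := h.n.ω0
  have hK := h.n.K10
  have h1 := low_of_rd (f := fun s => J F s + 1 / 16 * (F.w s ^ 2 * F.a s ^ 2)) (c := cJ P)
    ((h.toSt.cJ.mono hsub).add (continuousOn_const.mul
      (((h.cw.mono hsub).pow 2).mul ((h.ca.mono hsub).pow 2))))
    (fun r hr => (h.toSt.dJ (hI r hr)).fun_add
      ((((h.dw r (hI r hr)).fun_pow 2).fun_mul ((h.da r (hI r hr)).fun_pow 2)).const_mul (1 / 16)))
    (fun r hr => by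
      have hr' : r ∈ Icc 0 t1 := ⟨hr.1, hr.2.le⟩
      have e0 := h.hb r hr'
      have ha0 := h.a0 r (hJ r hr)
      have hw0 := h.w0 r (hJ r hr)
      have hw1 := h.toSt.w1 (hJ r hr)
      have hD := h.n.D1
      norm_num at hD
      have hx := abs_le.1 (h.toSt.x1 (hJ r hr))
      have hp := abs_le.1 (h.toSt.p1 (hJ r hr))
      have ham := h.n.am0
      have hα := h.n.α0
      -- the bound for `w ^ 2 |y|`
      have e1 : F.w r ^ 2 * |F.y r| ≤ P.θ + F.w r ^ 2 * F.a r ^ 2 := by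
        have h2 := h.yb r (hJ r hr)
        have h3 := h.a_grow hc h.hb r hr'
        have h4 : |F.y r| ≤ P.θ / 32 + F.a r ^ 2 := by linarith
        have h5 := mul_le_mul_of_nonneg_left h4 (sq_nonneg (F.w r))
        have h6 : F.w r ^ 2 * (P.θ / 32) ≤ P.θ := by
          have : F.w r ^ 2 ≤ 1 := by nlinarith
          nlinarith
        linarith
      have e2 := h.J'_low (s := r) ⟨hr.1, by linarith [hr.2]⟩ (W := P.θ + F.w r ^ 2 * F.a r ^ 2)
        (by positivity) e1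
      -- the growth of `w ^ 2 a ^ 2`
      set w' := 1 / 32 * (F.p r * (P.am * F.p r + F.w r) - F.w r * F.x r) - F.dw * F.w r with hw'
      set a' := F.x r * (P.α * F.x r + F.a r) - F.a r * F.y r - F.d1 * F.a r with ha'
      have e3 : -(1 / 10) * F.w r ≤ w' := by
        have h2 : 0 ≤ P.am * F.p r ^ 2 := by positivity
        have h3 : 0 ≤ F.w r * (2 + F.p r - F.x r) := by apply mul_nonneg hw0; linarith
        have h4 : 0 ≤ F.w r * (1 / 1000 - F.dw) := by apply mul_nonneg hw0; linarith [h.dwD]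
        rw [hw']
        nlinarith
      have e4 : 3 / 4 * F.a r ≤ a' := by
        have h2 : 0 ≤ P.α * F.x r ^ 2 := by positivity
        have h3 : 0 ≤ F.a r * (F.x r - F.y r - 4 / 5) := by apply mul_nonneg ha0; linarith
        have h4 : 0 ≤ F.a r * (1 / 1000 - F.d1) := by apply mul_nonneg ha0; linarith [h.d1D]
        rw [ha']
        nlinarith
      have e5 : -(1 / 10) * F.w r * (F.w r * F.a r ^ 2) ≤ w' * (F.w r * F.a r ^ 2) :=
        mul_le_mul_of_nonneg_right e3 (by positivity)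
      have e6 : 3 / 4 * F.a r * (F.w r ^ 2 * F.a r) ≤ a' * (F.w r ^ 2 * F.a r) :=
        mul_le_mul_of_nonneg_right e4 (by positivity)
      have e7 : 0 ≤ F.w r ^ 2 * F.a r ^ 2 := by positivity
      have e8 : 0 ≤ P.ω ^ 2 := sq_nonneg _
      simp only [cJ]
      push_cast
      nlinarith) t1 ⟨h.t0.le, le_rfl⟩
  have h2 : -P.θ ≤ J F 0 := by
    have h00 : (0 : ℝ) ∈ Icc 0 P.L := ⟨le_rfl, by linarith [h.n.L10]⟩
    have e1 := h.yb 0 h00
    rw [h.Φ0] at e1
    have e2 := h.toSt.x1 h00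
    have e3 : F.x 0 * F.y 0 ≤ P.θ / 32 := by
      refine (le_abs_self _).trans ?_
      rw [abs_mul]
      nlinarith [abs_nonneg (F.x 0), abs_nonneg (F.y 0)]
    simp only [J]
    nlinarith [sq_nonneg (F.a 0)]
  have h3 : F.w t1 ^ 2 * F.a t1 ^ 2 ≤ P.ω ^ 2 := by
    have e1 := h.w_small t1 ⟨le_rfl, by linarith⟩
    have e2 := h.w0 t1 ⟨h.t0.le, hc⟩
    have e3 : F.w t1 ^ 2 ≤ P.ω ^ 2 := pow_le_pow_left₀ e2 e1 2
    rw [h.at1]
    nlinarith [sq_nonneg P.ω]
  have h4 : 0 ≤ F.w 0 ^ 2 * F.a 0 ^ 2 := by positivity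
  simp only [sub_zero] at h1
  nlinarith [sq_nonneg P.ω]

/-- `J` in the second phase -/
lemma St1.J_low (h : St1 P F t1) : ∀ s ∈ Icc t1 (t1 + P.K), -eJ P ≤ J F s := by
  have hc := h.tK
  have hK := h.n.K10
  have hI : ∀ s ∈ Ico t1 (t1 + P.K), s ∈ Ico 0 P.L :=
    fun s hs => ⟨h.t0.le.trans hs.1, hs.2.trans_le hc⟩
  have hJ : ∀ s ∈ Ico t1 (t1 + P.K), s ∈ Icc 0 P.L :=
    fun s hs => ⟨h.t0.le.trans hs.1, hs.2.le.trans hc⟩
  have hsub : Icc t1 (t1 + P.K) ⊆ Icc 0 P.L := Icc_subset_Icc h.t0.le hc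
  intro s hs
  have hθ : 0 < P.θ := h.n.α0.trans_le h.n.αθ
  have h1 := low_of_rd (f := J F) (c := cJ P) (h.toSt.cJ.mono hsub)
    (fun r hr => h.toSt.dJ (hI r hr))
    (fun r hr => by
      have e1 : F.w r ^ 2 * |F.y r| ≤ P.ω ^ 2 := by
        have e1 := h.w_small r ⟨hr.1, hr.2.le⟩
        have e2 := h.w0 r (hJ r hr)
        have e3 : F.w r ^ 2 ≤ P.ω ^ 2 := pow_le_pow_left₀ e2 e1 2
        have e4 := h.toSt.y1 (hJ r hr)
        nlinarith [abs_nonneg (F.y r), sq_nonneg (F.w r)]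
      have e2 := h.J'_low (s := r) ⟨(hI r hr).1, hr.2.le⟩ (W := P.ω ^ 2) (sq_nonneg _) e1
      simp only [cJ]
      nlinarith [sq_nonneg P.ω]) s hs
  have h2 := h.J_t1
  have h3 : cJ P * s ≤ cJ P * P.L :=
    mul_le_mul_of_nonneg_left (hs.2.trans hc) h.n.cJ0.le
  simp only [eJ]
  nlinarith

/-- the constant in the estimate of `S` -/
noncomputable def eS (P : Pm) : ℝ := P.θ + (P.α + 2 * P.D + 64 * P.θp ^ 2) * P.L

lemma St1.S_low (h : St1 P F t1) : ∀ s ∈ Icc 0 (t1 + P.K), P.β - eS P ≤ F.x s + F.y s := by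
  have hc := h.tK
  have hK := h.n.K10
  have hI : ∀ s ∈ Ico 0 (t1 + P.K), s ∈ Ico 0 P.L :=
    fun s hs => ⟨hs.1, hs.2.trans_le hc⟩
  have hJ : ∀ s ∈ Ico 0 (t1 + P.K), s ∈ Icc 0 P.L :=
    fun s hs => ⟨hs.1, hs.2.le.trans hc⟩
  have hsub : Icc 0 (t1 + P.K) ⊆ Icc 0 P.L := Icc_subset_Icc_right hc
  intro s hs
  have hθ : 0 < P.θ := h.n.α0.trans_le h.n.αθ
  have hD := h.n.D0
  have hα := h.n.α0
  have hap := h.n.ap0
  have hapθ := h.n.apθ
  have h1 := low_of_rd (f := fun s => F.x s + F.y s) (c := P.α + 2 * P.D + 64 * P.θp ^ 2)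
    ((h.cx.mono hsub).add (h.cy.mono hsub))
    (fun r hr => (h.dx r (hI r hr)).fun_add (h.dy r (hI r hr)))
    (fun r hr => by
      have ha0 := h.a0 r (hJ r hr)
      have ha1 := h.toSt.a1 (hJ r hr)
      have hx := h.toSt.x1 (hJ r hr)
      have hy := h.toSt.y1 (hJ r hr)
      have hz0 := h.z0 r (hJ r hr)
      have hz1 := h.z_small r ⟨hr.1, hr.2.le⟩
      have e1 : F.a r * (P.α * F.x r) ≤ P.α := by
        have : |F.a r * (P.α * F.x r)| ≤ P.α := by
          rw [abs_mul, abs_mul, abs_of_nonneg ha0, abs_of_pos hα]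
          have h2 : F.a r * (P.α * |F.x r|) ≤ 1 * (P.α * 1) :=
            mul_le_mul ha1 (mul_le_mul_of_nonneg_left hx hα.le)
              (mul_nonneg hα.le (abs_nonneg _)) zero_le_one
          linarith
        exact (le_abs_self _).trans this
      have e2 : F.d0 * F.x r ≤ P.D := by
        have : F.d0 * F.x r ≤ F.d0 * 1 := mul_le_mul_of_nonneg_left (abs_le.1 hx).2 h.d00
        linarith [h.d0D]
      have e3 : F.d2 * F.y r ≤ P.D := by
        have : F.d2 * F.y r ≤ F.d2 * 1 := mul_le_mul_of_nonneg_left (abs_le.1 hy).2 h.d20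
        linarith [h.d2D]
      have e4 : 32 * F.z r * (P.ap * F.y r + F.z r) ≤ 64 * P.θp ^ 2 := by
        have h3 : P.ap * F.y r + F.z r ≤ 2 * P.θp := by
          have : P.ap * F.y r ≤ P.ap * 1 := mul_le_mul_of_nonneg_left (abs_le.1 hy).2 hap.le
          linarith
        have h4 : 32 * F.z r * (P.ap * F.y r + F.z r) ≤ 32 * F.z r * (2 * P.θp) :=
          mul_le_mul_of_nonneg_left h3 (by positivity)
        nlinarith
      nlinarith [sq_nonneg (F.w r)]) s hs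
  have h2 : -P.θ ≤ F.y 0 := by
    have h00 : (0 : ℝ) ∈ Icc 0 P.L := ⟨le_rfl, by linarith [h.n.L10]⟩
    have e1 := h.yb 0 h00
    rw [h.Φ0] at e1
    linarith [(abs_le.1 e1).1]
  have h3 := h.xi
  have h4 : (P.α + 2 * P.D + 64 * P.θp ^ 2) * s ≤ (P.α + 2 * P.D + 64 * P.θp ^ 2) * P.L := by
    apply mul_le_mul_of_nonneg_left (hs.2.trans hc)
    positivity
  simp only [eS]
  simp only [sub_zero] at h1
  linarith

lemma Nu.sθp (h : Nu P) : P.θp ^ 2 * P.L ≤ 1 / 10 ^ 12 := by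
  have h1 := h.θpL
  have h2 := h.θp1
  have h3 : 0 < P.θp := h.ap0.trans_le h.apθ
  have : P.θp ^ 2 * P.L = P.θp * (P.θp * P.L) := by ring
  rw [this]
  calc P.θp * (P.θp * P.L) ≤ 1 / 10 ^ 6 * (1 / 10 ^ 6) :=
        mul_le_mul h2 h1 (by have := h.L10; positivity) (by norm_num)
    _ = 1 / 10 ^ 12 := by norm_num

lemma Nu.sα (h : Nu P) : P.α * P.L ≤ 1 / 10 ^ 6 := by
  have h1 := h.θL
  have h2 := h.αθ
  have h3 := h.L10
  have : P.α * P.L ≤ P.θ * P.L := mul_le_mul_of_nonneg_right h2 (by linarith)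
  linarith

/-- `ω ^ 2 L` must be small as well -/
structure Nu2 (P : Pm) : Prop extends Nu P where
  ωL : P.ω ^ 2 * P.L ≤ 1 / 10 ^ 6

lemma Nu2.eJ (h : Nu2 P) : eJ P ≤ 1 / 10 ^ 4 := by
  have h1 := h.sα
  have h2 := h.DL
  have h3 := h.θL
  have h4 := h.ωL
  have h5 := h.sθp
  have h6 := h.θ1
  have h7 : P.ω ^ 2 ≤ P.ω ^ 2 * P.L := by nlinarith [h.L10, sq_nonneg P.ω]
  simp only [Log.eJ, cJ]
  norm_num at *
  nlinarith

lemma Nu2.eS (h : Nu2 P) : eS P ≤ 1 / 10 ^ 4 := by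
  have h1 := h.sα
  have h2 := h.DL
  have h5 := h.sθp
  have h6 := h.θ1
  simp only [Log.eS]
  norm_num at *
  nlinarith

/-- the loss in the second phase -/
noncomputable def e' (P : Pm) : ℝ := eJ P + 64 * P.θp ^ 2 + P.D

lemma Nu2.e'1 (h : Nu2 P) : e' P ≤ 2 / 10 ^ 4 := by
  have h1 := h.eJ
  have h2 := h.D1
  have h3 := h.θp1
  have h4 : 0 < P.θp := h.ap0.trans_le h.apθ
  simp only [e']
  norm_num at *
  nlinarith

lemma Nu2.e'0 (h : Nu2 P) : 0 < e' P := by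
  have h2 := h.D0
  have h3 := h.cJ0
  have h4 := h.L10
  have h5 : 0 < P.θ := h.α0.trans_le h.αθ
  have : 0 < cJ P * P.L := by positivity
  simp only [e', Log.eJ]
  nlinarith [sq_nonneg P.θp, sq_nonneg P.ω]

/-- `y` at the end of the first phase -/
lemma St1.y_t1 (h : St1 P F t1) : 1 / 1000 ≤ F.y t1 := by
  have hc := h.tL
  have hK := h.n.K10
  have hI : ∀ s ∈ Ico 0 t1, s ∈ Ico 0 P.L := fun s hs => ⟨hs.1, hs.2.trans_le hc⟩
  have hJ : ∀ s ∈ Ico 0 t1, s ∈ Icc 0 P.L := fun s hs => ⟨hs.1, hs.2.le.trans hc⟩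
  have hsub : Icc 0 t1 ⊆ Icc 0 P.L := Icc_subset_Icc_right hc
  have hθ : 0 < P.θ := h.n.α0.trans_le h.n.αθ
  have hD := h.n.D0
  have hα := h.n.α0
  have hap := h.n.ap0
  have hapθ := h.n.apθ
  -- `Φ` is not small
  have h1 := up_of_rd (f := fun s => F.a s ^ 2 - 202 / 100 * F.Φ s) (c := P.α)
    (((h.ca.mono hsub).pow 2).sub (continuousOn_const.mul (h.cΦ.mono hsub)))
    (fun r hr => ((h.da r (hI r hr)).fun_pow 2).fun_sub ((h.dΦ r (hI r hr)).const_mul (202 / 100)))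
    (fun r hr => by
      have hr' : r ∈ Icc 0 t1 := ⟨hr.1, hr.2.le⟩
      have ha0 := h.a0 r (hJ r hr)
      have e0 := h.hb r hr'
      have hx := abs_le.1 (h.toSt.x1 (hJ r hr))
      have hy := abs_le.1 (h.y_small hc h.hb r hr')
      have hd1 := h.d10
      have e1 : 0 ≤ F.a r ^ 2 * (101 / 100 - (F.x r - F.y r)) := by
        apply mul_nonneg (sq_nonneg _); linarith
      have e2 : F.a r * (P.α * F.x r ^ 2) ≤ P.α / 20 := by
        have : F.x r ^ 2 ≤ 1 := by nlinarith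
        have e3 : P.α * F.x r ^ 2 ≤ P.α * 1 := mul_le_mul_of_nonneg_left this hα.le
        have e4 : F.a r * (P.α * F.x r ^ 2) ≤ 1 / 20 * (P.α * 1) :=
          mul_le_mul e0.1 e3 (by positivity) (by norm_num)
        linarith
      have e3 : 0 ≤ F.d1 * F.a r ^ 2 := by positivity
      push_cast
      nlinarith) t1 ⟨h.t0.le, le_rfl⟩
  -- `y` gains `Φ`
  have h2 := low_of_rd (f := fun s => F.y s - F.Φ s) (c := 64 * P.θp ^ 2 + P.D)
    ((h.cy.mono hsub).sub (h.cΦ.mono hsub))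
    (fun r hr => (h.dy r (hI r hr)).fun_sub (h.dΦ r (hI r hr)))
    (fun r hr => by
      have hy := h.toSt.y1 (hJ r hr)
      have hz0 := h.z0 r (hJ r hr)
      have hz1 := h.z_small r ⟨hr.1, by linarith [hr.2]⟩
      have e3 : F.d2 * F.y r ≤ P.D := by
        have : F.d2 * F.y r ≤ F.d2 * 1 := mul_le_mul_of_nonneg_left (abs_le.1 hy).2 h.d20
        linarith [h.d2D]
      have e4 : 32 * F.z r * (P.ap * F.y r + F.z r) ≤ 64 * P.θp ^ 2 := by
        have h3 : P.ap * F.y r + F.z r ≤ 2 * P.θp := by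
          have : P.ap * F.y r ≤ P.ap * 1 := mul_le_mul_of_nonneg_left (abs_le.1 hy).2 hap.le
          linarith
        have h4 : 32 * F.z r * (P.ap * F.y r + F.z r) ≤ 32 * F.z r * (2 * P.θp) :=
          mul_le_mul_of_nonneg_left h3 (by positivity)
        nlinarith
      linarith) t1 ⟨h.t0.le, le_rfl⟩
  rw [h.at1, h.Φ0] at h1
  rw [h.Φ0] at h2
  have h00 : (0 : ℝ) ∈ Icc 0 P.L := ⟨le_rfl, by linarith [h.n.L10]⟩
  have h3 := h.yb 0 h00
  rw [h.Φ0] at h3
  have h4 := (abs_le.1 h3).1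
  have h5 : F.a 0 ^ 2 ≤ P.θ := by
    have e1 := h.ai
    have e2 := h.a0 0 h00
    have e3 := h.n.θ1
    norm_num at e3
    nlinarith
  have h6 : P.α * t1 ≤ 1 / 10 ^ 6 := by
    have := h.n.sα
    have : P.α * t1 ≤ P.α * P.L := mul_le_mul_of_nonneg_left hc hα.le
    linarith
  have h7 : (64 * P.θp ^ 2 + P.D) * t1 ≤ 2 / 10 ^ 5 := by
    have e1 : (64 * P.θp ^ 2 + P.D) * t1 ≤ (64 * P.θp ^ 2 + P.D) * P.L :=
      mul_le_mul_of_nonneg_left hc (by positivity)
    have e2 := h.n.sθp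
    have e3 := h.n.DL
    norm_num at e2 e3 ⊢
    nlinarith
  have h8 := h.n.θ1
  norm_num at h8 h6 h7
  simp only [sub_zero] at h1 h2
  linarith

/-- the derivative of `y` in the second phase -/
lemma St1.y'_low (h : St1 P F t1) {s : ℝ} (hs : s ∈ Icc t1 (t1 + P.K)) (hy0 : 0 ≤ F.y s) :
    2 * (P.β - eS P - F.y s) * F.y s - e' P ≤
      F.a s ^ 2 - 32 * F.z s * (P.ap * F.y s + F.z s) - F.d2 * F.y s := by
  have hs' : s ∈ Icc 0 P.L := ⟨h.t0.le.trans hs.1, hs.2.trans h.tK⟩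
  have hs2 : s ∈ Icc 0 (t1 + P.K) := ⟨h.t0.le.trans hs.1, hs.2⟩
  have hap := h.n.ap0
  have hapθ := h.n.apθ
  have h1 := h.J_low s hs
  have h2 := h.S_low s hs2
  have hy := h.toSt.y1 hs'
  have hz0 := h.z0 s hs'
  have hz1 := h.z_small s hs2
  have e3 : F.d2 * F.y s ≤ P.D := by
    have : F.d2 * F.y s ≤ F.d2 * 1 := mul_le_mul_of_nonneg_left (abs_le.1 hy).2 h.d20
    linarith [h.d2D]
  have e4 : 32 * F.z s * (P.ap * F.y s + F.z s) ≤ 64 * P.θp ^ 2 := by
    have h3 : P.ap * F.y s + F.z s ≤ 2 * P.θp := by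
      have : P.ap * F.y s ≤ P.ap * 1 := mul_le_mul_of_nonneg_left (abs_le.1 hy).2 hap.le
      linarith
    have h4 : 32 * F.z s * (P.ap * F.y s + F.z s) ≤ 32 * F.z s * (2 * P.θp) :=
      mul_le_mul_of_nonneg_left h3 (by positivity)
    nlinarith
  have e5 : (P.β - eS P - F.y s) * F.y s ≤ F.x s * F.y s :=
    mul_le_mul_of_nonneg_right (by linarith) hy0
  simp only [J] at h1
  simp only [e']
  linarith

/-- **The transfer.** -/
theorem St1.transfer (h : St1 P F t1) (hn : Nu2 P) :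
    P.β - eS P - 2 * e' P - Real.exp (10 - P.K) ≤ F.y (t1 + P.K) := by
  have hc := h.tK
  have hK := h.n.K10
  have hI : ∀ s ∈ Ico t1 (t1 + P.K), s ∈ Ico 0 P.L :=
    fun s hs => ⟨h.t0.le.trans hs.1, hs.2.trans_le hc⟩
  have hsub : Icc t1 (t1 + P.K) ⊆ Icc 0 P.L := Icc_subset_Icc h.t0.le hc
  have he0 := hn.e'0
  have he1 := hn.e'1
  have hS := hn.eS
  have hβ := hn.β1
  set s0 := P.β - eS P with hs0
  have hs0' : 94 / 100 ≤ s0 := by norm_num at *; linarith
  -- `y` reaches `1 / 2`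
  have hreach : ∃ th ∈ Icc t1 (t1 + 10), 1 / 2 ≤ F.y th := by
    by_contra hcon
    push Not at hcon
    have hlow : ∀ s ∈ Icc t1 (t1 + 10), 1 / 1000 ≤ F.y s := by
      have hb := barrier (f := fun s => F.y s - 1 / 1000) (a := t1) (b := t1 + 10)
        ((h.cy.mono (Icc_subset_Icc h.t0.le (by linarith))).sub continuousOn_const)
        (fun r hr => (h.dy r ⟨h.t0.le.trans hr.1, by linarith [hr.2]⟩).sub_const (1 / 1000))
        (by linarith [h.y_t1])
        (fun r hr hr0 => by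
          have hy : F.y r = 1 / 1000 := by linarith
          have h1 := h.y'_low (s := r) ⟨hr.1, by linarith [hr.2]⟩ (by rw [hy]; norm_num)
          refine lt_of_lt_of_le ?_ h1
          rw [hy]
          norm_num at he1 ⊢
          linarith)
      intro s hs
      have := hb s hs
      linarith
    have hg := gron_ge_const (u := F.y) (k := 7 / 10) (a := t1) (b := t1 + 10)
      (h.cy.mono (Icc_subset_Icc h.t0.le (by linarith)))
      (fun r hr => h.dy r ⟨h.t0.le.trans hr.1, by linarith [hr.2]⟩)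
      (fun r hr => by
        have hy1 := hlow r ⟨hr.1, hr.2.le⟩
        have hy2 := hcon r ⟨hr.1, hr.2.le⟩
        have h1 := h.y'_low (s := r) ⟨hr.1, by linarith [hr.2]⟩ (by linarith)
        refine le_trans ?_ h1
        have h2 : 0 ≤ (s0 - F.y r - 44 / 100) * F.y r := by
          apply mul_nonneg <;> linarith
        norm_num at he1
        nlinarith) (t1 + 10) ⟨by linarith, le_rfl⟩
    have h7 : 1000 ≤ Real.exp (7 / 10 * (t1 + 10 - t1)) := by
      have e1 : (7 / 10 * (t1 + 10 - t1) : ℝ) = 7 * 1 := by ring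
      rw [e1]
      have e2 := Real.exp_one_gt_d9
      have e3 : Real.exp (7 * 1) = Real.exp 1 ^ 7 := by
        rw [← Real.exp_nat_mul]; norm_num
      rw [e3]
      have e4 : (27 / 10 : ℝ) ^ 7 ≤ Real.exp 1 ^ 7 :=
        pow_le_pow_left₀ (by norm_num) (by linarith) 7
      norm_num at e4 ⊢
      linarith
    have h8 := hcon (t1 + 10) ⟨by linarith, le_rfl⟩
    have h9 := h.y_t1
    nlinarith
  obtain ⟨th, hth, hyth⟩ := hreach
  have hthK : th ≤ t1 + P.K := by linarith [hth.2]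
  have hsub2 : Icc th (t1 + P.K) ⊆ Icc 0 P.L :=
    Icc_subset_Icc (h.t0.le.trans hth.1) hc
  have hI2 : ∀ s ∈ Ico th (t1 + P.K), s ∈ Icc t1 (t1 + P.K) :=
    fun s hs => ⟨hth.1.trans hs.1, hs.2.le⟩
  have hI3 : ∀ s ∈ Ico th (t1 + P.K), s ∈ Ico 0 P.L :=
    fun s hs => ⟨h.t0.le.trans (hth.1.trans hs.1), hs.2.trans_le hc⟩
  -- `y` stays above `1 / 2`
  have hhalf : ∀ s ∈ Icc th (t1 + P.K), 1 / 2 ≤ F.y s := by
    have hb := barrier (f := fun s => F.y s - 1 / 2) (a := th) (b := t1 + P.K)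
      ((h.cy.mono hsub2).sub continuousOn_const)
      (fun r hr => (h.dy r (hI3 r hr)).sub_const (1 / 2)) (by linarith)
      (fun r hr hr0 => by
        have hy : F.y r = 1 / 2 := by linarith
        have h1 := h.y'_low (hI2 r hr) (by rw [hy]; norm_num)
        refine lt_of_lt_of_le ?_ h1
        rw [hy]
        norm_num at he1 ⊢
        linarith)
    intro s hs
    have := hb s hs
    linarith
  -- relaxation
  have hfin := barrier (f := fun s => F.y s + 2 * e' P + Real.exp (-1 * (s - th)) - s0)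
    (a := th) (b := t1 + P.K)
    ((((h.cy.mono hsub2).add continuousOn_const).add (by fun_prop)).sub continuousOn_const)
    (fun r hr => (((h.dy r (hI3 r hr)).add_const (2 * e' P)).fun_add
      ((rd_lin (-1) th r).exp)).sub_const s0)
    (by
      have hy1 := (abs_le.1 (h.toSt.y1 (hsub2 ⟨le_rfl, hthK⟩))).2
      have : s0 ≤ 1 + 1 / 2 := by
        have := (abs_le.1 (h.toSt.x1 (s := 0) ⟨le_rfl, by linarith [hn.L10]⟩)).2
        have h2 := h.xi
        have h3 : 0 ≤ eS P := by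
          have e1 := hn.α0
          have e2 := hn.D0
          have e3 := hn.L10
          have e4 := hn.αθ
          have : 0 ≤ (P.α + 2 * P.D + 64 * P.θp ^ 2) * P.L := by positivity
          simp only [eS]
          linarith
        linarith
      simp only [sub_self, mul_zero, Real.exp_zero]
      linarith)
    (fun r hr hr0 => by
      have hy := hhalf r ⟨hr.1, hr.2.le⟩
      have h1 := h.y'_low (hI2 r hr) (by linarith)
      have h2 := Real.exp_pos (-1 * (r - th))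
      have h3 : s0 - F.y r = 2 * e' P + Real.exp (-1 * (r - th)) := by linarith
      have h4 : (s0 - F.y r) * 1 ≤ (s0 - F.y r) * (2 * F.y r) :=
        mul_le_mul_of_nonneg_left (by linarith) (by rw [h3]; positivity)
      linarith) (t1 + P.K) ⟨hthK, le_rfl⟩
  have h5 : Real.exp (-1 * (t1 + P.K - th)) ≤ Real.exp (10 - P.K) := by
    apply Real.exp_le_exp.2
    linarith [hth.2]
  linarith

end Pool.Agent.H42.Log
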